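import Pool.Agent.TTh.Win

/-!
# TTh/Asym: choice of the parameters

`k = kk p N` = number of primes dividing `N p`, `P = primorial (4 k)`, `S = Sw p N = P (4 k + 2)`.

PROOF.  Let `δ > 0` be small (`δ = min ε 1 / 100`).
(a) `k ≤ ω(N) + 1`, `P ≤ 4 ^ (4 k)` (`primorial_le_four_pow` or `primorial_le_4_pow`), and for every
`A ≥ 1`: `A ^ ω(N) = ∏_{q ∣ N} A ≤ (∏_{q < A^(1/δ)} A) ∏_{q ∣ N} q ^ δ ≤ C N ^ δ`.  So
`k, P, S ≤ C N ^ δ` (`k ≤ 2 ^ k`), hence `≤ N ^ (2 δ)` for large `N`.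
(b) `Z = ⌊N ^ (1/3 - 3 δ)⌋`, `Y = ⌊N ^ (1/3 - 4 δ)⌋`, `U = ⌊N ^ (1/3 - 7 δ)⌋`.  Then
`2 ((2 p + 1) Z) ^ 2 (1 + Z S) ≤ C N ^ (1 - 9 δ + 2 δ) < N`,
`2 (2 p + 1) Z (1 + Z S) ≤ C N ^ (2/3 - 6 δ + 2 δ) < Y ^ 3` as `Y ^ 3 ≥ N ^ (1 - 12 δ) / 8`,
`P (U + 1) ≤ 2 N ^ (1/3 - 5 δ) ≤ Y`,
`π(Z) ≥ Z / (2 log Z)`-type bound (`Chebyshev.pi_ge`), so `π(Z) - Y - k - 1 ≥ N ^ (1/3 - 7 δ / 2)` for
large `N`, and `U - 4 k ≥ N ^ (1/3 - 8 δ)`.  The product is `≥ N ^ (2/3 - 12 δ) ≥ 4 N ^ (2/3 - ε) + 4`.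
(The proof below uses slightly different exponents.)
-/

namespace Pool.Agent.TTh

open Filter

/-- `A ^ ω(N) ≤ C N ^ δ` -/
theorem asym_omega (A δ : ℝ) (hA : 1 ≤ A) (hδ : 0 < δ) :
    ∃ C : ℝ, 0 < C ∧ ∀ N : ℕ, N ≠ 0 → A ^ N.primeFactors.card ≤ C * (N : ℝ) ^ δ := by
  obtain ⟨M, hM⟩ : ∃ M : ℕ, ∀ q : ℕ, M ≤ q → A ≤ (q : ℝ) ^ δ := by
    have h := ((tendsto_rpow_atTop hδ).comp tendsto_natCast_atTop_atTop).eventually_ge_atTop A
    obtain ⟨M, hM⟩ := eventually_atTop.1 h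
    exact ⟨M, fun q hq => hM q hq⟩
  refine ⟨A ^ M, by positivity, fun N hN => ?_⟩
  have h1 : ∀ q ∈ N.primeFactors, A ≤ (if q < M then A else 1) * (q : ℝ) ^ δ := by
    intro q hq
    have hq1 : (1 : ℝ) ≤ q := by exact_mod_cast (Nat.prime_of_mem_primeFactors hq).one_lt.le
    split_ifs with h
    · have : (1 : ℝ) ≤ (q : ℝ) ^ δ := Real.one_le_rpow hq1 hδ.le
      nlinarith
    · rw [one_mul]
      exact hM q (not_lt.1 h)
  calc A ^ N.primeFactors.card = ∏ q ∈ N.primeFactors, A := by simp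
    _ ≤ ∏ q ∈ N.primeFactors, ((if q < M then A else 1) * (q : ℝ) ^ δ) :=
        Finset.prod_le_prod (fun _ _ => by linarith) h1
    _ = (∏ q ∈ N.primeFactors, (if q < M then A else 1)) * ∏ q ∈ N.primeFactors, (q : ℝ) ^ δ :=
        Finset.prod_mul_distrib
    _ ≤ A ^ M * (N : ℝ) ^ δ := by
        apply mul_le_mul _ _ (Finset.prod_nonneg fun _ _ => by positivity) (by positivity)
        · rw [Finset.prod_ite]
          simp only [Finset.prod_const, one_pow, mul_one]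
          apply pow_le_pow_right₀ hA
          calc (N.primeFactors.filter (· < M)).card ≤ (Finset.range M).card := by
                apply Finset.card_le_card
                intro q hq
                simpa using (Finset.mem_filter.1 hq).2
            _ = M := Finset.card_range M
        · rw [Real.finsetProd_rpow _ _ (fun _ _ => by positivity)]
          apply Real.rpow_le_rpow (Finset.prod_nonneg fun _ _ => by positivity) _ hδ.le
          have := Nat.le_of_dvd (Nat.pos_of_ne_zero hN) (Nat.prod_primeFactors_dvd N)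
          calc (∏ q ∈ N.primeFactors, (q : ℝ)) = ((∏ q ∈ N.primeFactors, q : ℕ) : ℝ) := by
                push_cast; rfl
            _ ≤ N := by exact_mod_cast this

/-- a constant is absorbed by a larger exponent -/
theorem asym_ev (C x y : ℝ) (h : x < y) : ∀ᶠ N : ℕ in atTop, C * (N : ℝ) ^ x ≤ (N : ℝ) ^ y := by
  have h1 := ((tendsto_rpow_atTop (sub_pos.2 h)).comp
    tendsto_natCast_atTop_atTop).eventually_ge_atTop C
  filter_upwards [h1, eventually_gt_atTop 0] with N hN hN0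
  have hN1 : (0 : ℝ) < N := by exact_mod_cast hN0
  have h2 : (N : ℝ) ^ y = (N : ℝ) ^ (y - x) * (N : ℝ) ^ x := by
    rw [← Real.rpow_add hN1]; ring_nf
  rw [h2]
  exact mul_le_mul_of_nonneg_right hN (by positivity)

/-- the prime counting function is eventually larger than `n ^ (1 - s)` -/
theorem asym_pi (s : ℝ) (hs : 0 < s) :
    ∀ᶠ n : ℕ in atTop, (n : ℝ) ^ (1 - s) ≤ (Nat.primeCounting n : ℝ) := by
  have hlog : ∀ᶠ n : ℕ in atTop, Real.log n ≤ (n : ℝ) ^ (s / 2) := by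
    have h := (isLittleO_log_rpow_atTop (half_pos hs)).bound one_pos
    have h2 := tendsto_natCast_atTop_atTop.eventually h
    filter_upwards [h2] with n hn
    rw [one_mul] at hn
    refine (le_abs_self _).trans (hn.trans ?_)
    rw [Real.norm_of_nonneg (by positivity)]
  have hlog1 : ∀ᶠ n : ℕ in atTop, Real.log n ≤ (n : ℝ) ^ (1 / 2 : ℝ) := by
    have h := (isLittleO_log_rpow_atTop (half_pos one_pos)).bound one_pos
    have h2 := tendsto_natCast_atTop_atTop.eventually h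
    filter_upwards [h2] with n hn
    rw [one_mul] at hn
    refine (le_abs_self _).trans (hn.trans ?_)
    rw [Real.norm_of_nonneg (by positivity)]
  filter_upwards [hlog, hlog1, asym_ev 4 (1 - s / 2) 1 (by linarith), asym_ev 8 (1 / 2) 1 (by norm_num),
    eventually_gt_atTop 2] with n h1 h2 h3 h4 h5
  have hn0 : (0 : ℝ) < n := by exact_mod_cast (by omega : 0 < n)
  have hn2 : (2 : ℝ) < n := by exact_mod_cast h5
  have hl : 0 < Real.log n := Real.log_pos (by linarith)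
  rw [Real.rpow_one] at h3 h4
  have h6 : Real.log (n + 1) ≤ 2 * Real.log n := by
    rw [← Real.log_rpow hn0, Real.rpow_two]
    apply Real.log_le_log (by linarith)
    nlinarith
  have h7 := Chebyshev.pi_ge n
  refine le_trans ?_ h7
  rw [le_div_iff₀ hl]
  have h8 : (n : ℝ) ^ (1 - s) * Real.log n ≤ (n : ℝ) ^ (1 - s / 2) := by
    calc (n : ℝ) ^ (1 - s) * Real.log n ≤ (n : ℝ) ^ (1 - s) * (n : ℝ) ^ (s / 2) :=
          mul_le_mul_of_nonneg_left h1 (by positivity)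
      _ = (n : ℝ) ^ (1 - s / 2) := by
          rw [← Real.rpow_add hn0]; ring_nf
  have h9 := Real.log_two_gt_d9
  nlinarith

/-- the size of the windows -/
theorem asym_T (p : ℕ) (hp : p.Prime) (η : ℝ) (hη : 0 < η) : ∀ᶠ N : ℕ in atTop,
    ((Sw p N : ℕ) : ℝ) ≤ (N : ℝ) ^ η ∧ ((primorial (4 * kk p N) : ℕ) : ℝ) ≤ (N : ℝ) ^ η ∧
      ((kk p N : ℕ) : ℝ) ≤ (N : ℝ) ^ η := by
  obtain ⟨C, hC, h⟩ := asym_omega (4 ^ 5) (η / 2) (by norm_num) (half_pos hη)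
  filter_upwards [asym_ev (4 ^ 6 * C) (η / 2) η (by linarith), eventually_gt_atTop 0] with N hN hN0
  have hk : kk p N ≤ N.primeFactors.card + 1 := by
    unfold kk
    rw [Nat.primeFactors_mul hN0.ne' hp.ne_zero, hp.primeFactors]
    exact (Finset.card_union_le _ _).trans (by simp)
  have hT : ((4 ^ (5 * kk p N + 1) : ℕ) : ℝ) ≤ (N : ℝ) ^ η := by
    refine le_trans ?_ hN
    calc ((4 ^ (5 * kk p N + 1) : ℕ) : ℝ) ≤ ((4 ^ (5 * (N.primeFactors.card + 1) + 1) : ℕ) : ℝ) := by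
          exact_mod_cast Nat.pow_le_pow_right (by norm_num) (by omega)
      _ = 4 ^ 6 * (4 ^ 5) ^ N.primeFactors.card := by
          push_cast
          rw [← pow_mul, ← pow_add]; ring_nf
      _ ≤ 4 ^ 6 * (C * (N : ℝ) ^ (η / 2)) :=
          mul_le_mul_of_nonneg_left (h N hN0.ne') (by norm_num)
      _ = _ := by ring
  have hP : primorial (4 * kk p N) ≤ 4 ^ (4 * kk p N) := primorial_le_four_pow _
  have hk4 : 4 * kk p N + 2 ≤ 4 ^ (kk p N + 1) := by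
    have : kk p N < 4 ^ kk p N := Nat.lt_pow_self (by norm_num)
    rw [pow_succ]
    omega
  have hS : Sw p N ≤ 4 ^ (5 * kk p N + 1) := by
    unfold Sw
    calc _ ≤ 4 ^ (4 * kk p N) * 4 ^ (kk p N + 1) := Nat.mul_le_mul hP hk4
      _ = _ := by rw [← pow_add]; ring_nf
  have hP2 : primorial (4 * kk p N) ≤ 4 ^ (5 * kk p N + 1) :=
    hP.trans (Nat.pow_le_pow_right (by norm_num) (by omega))
  have hk2 : kk p N ≤ 4 ^ (5 * kk p N + 1) := by
    have : kk p N < 4 ^ kk p N := Nat.lt_pow_self (by norm_num)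
    exact this.le.trans (Nat.pow_le_pow_right (by norm_num) (by omega))
  exact ⟨le_trans (by exact_mod_cast hS) hT, le_trans (by exact_mod_cast hP2) hT,
    le_trans (by exact_mod_cast hk2) hT⟩

theorem asym (p : ℕ) (hp : p.Prime) (ε : ℝ) (hε : 0 < ε) : ∃ N₀ : ℕ, ∀ N : ℕ, N₀ ≤ N →
    2 < N ∧ ∃ Z Y U : ℕ, 2 * ((2 * p + 1) * Z) ^ 2 * (1 + Z * Sw p N) < N ∧
      2 * ((2 * p + 1) * Z) * (1 + Z * Sw p N) < Y ^ 3 ∧
      primorial (4 * kk p N) * (U + 1) ≤ Y ∧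
      4 * ((N : ℝ) ^ (2 / 3 - ε) + 1) ≤
        (((Nat.primeCounting Z - Y - kk p N - 1) * (U - 4 * kk p N) : ℕ) : ℝ) := by
  obtain ⟨η, hη, hη1, hη2⟩ : ∃ η : ℝ, 0 < η ∧ η ≤ 1 / 100 ∧ η ≤ ε / 100 :=
    ⟨min (1 / 100) (ε / 100), lt_min (by norm_num) (by linarith), min_le_left _ _, min_le_right _ _⟩
  rw [← eventually_atTop]
  have hZ : Tendsto (fun N : ℕ => ⌊(N : ℝ) ^ (1 / 3 - η)⌋₊) atTop atTop :=
    tendsto_nat_floor_atTop.comp ((tendsto_rpow_atTop (by linarith)).comp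
      tendsto_natCast_atTop_atTop)
  have hpr : (0 : ℝ) < p := by exact_mod_cast hp.pos
  filter_upwards [asym_T p hp η hη, hZ.eventually (asym_pi (η / 2) (half_pos hη)),
    asym_ev (16 * (2 * p + 1) ^ 2) (1 - 2 * η) 1 (by linarith),
    asym_ev (8 * (16 * (2 * p + 1))) (2 / 3 - η) (1 - 6 * η) (by linarith),
    asym_ev 4 (1 / 3 - 3 * η) (1 / 3 - 2 * η) (by linarith),
    asym_ev 2 0 (1 / 3 - 4 * η) (by linarith),
    asym_ev 8 (1 / 3 - 2 * η) (1 / 3 - 7 / 6 * η) (by linarith),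
    asym_ev 1 η (1 / 3 - 2 * η) (by linarith),
    asym_ev 4 (1 / 3 - 5 * η) (1 / 3 - 4 * η) (by linarith),
    asym_ev 16 η (1 / 3 - 4 * η) (by linarith),
    asym_ev 8 (2 / 3 - ε) (2 / 3 - 7 * η) (by linarith),
    asym_ev 8 0 (2 / 3 - 7 * η) (by linarith),
    eventually_gt_atTop 2] with N hT hpi e1 e2 e3 e4 e5 e6 e7 e8 e9 e10 hN2
  obtain ⟨hS, hP, hk⟩ := hT
  refine ⟨hN2, ⌊(N : ℝ) ^ (1 / 3 - η)⌋₊, ⌊(N : ℝ) ^ (1 / 3 - 2 * η)⌋₊,
    ⌊(N : ℝ) ^ (1 / 3 - 4 * η)⌋₊, ?_⟩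
  have hN0 : (0 : ℝ) < N := by exact_mod_cast (by omega : 0 < N)
  have hN1 : (1 : ℝ) ≤ N := by exact_mod_cast (by omega : 1 ≤ N)
  set Z := ⌊(N : ℝ) ^ (1 / 3 - η)⌋₊ with hZd
  set Y := ⌊(N : ℝ) ^ (1 / 3 - 2 * η)⌋₊ with hYd
  set U := ⌊(N : ℝ) ^ (1 / 3 - 4 * η)⌋₊ with hUd
  set S := Sw p N with hSd
  set P := primorial (4 * kk p N) with hPd
  set k := kk p N with hkd
  -- floors
  have fl_le : ∀ x : ℝ, 0 ≤ x → (⌊x⌋₊ : ℝ) ≤ x := fun x hx => Nat.floor_le hx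
  have fl_ge : ∀ x : ℝ, 1 ≤ x → x / 2 ≤ (⌊x⌋₊ : ℝ) := by
    intro x hx
    have h1 : (1 : ℝ) ≤ (⌊x⌋₊ : ℝ) := by exact_mod_cast (Nat.one_le_floor_iff x).2 hx
    have h2 := Nat.lt_floor_add_one x
    linarith
  have one_le : ∀ x : ℝ, 0 ≤ x → 1 ≤ (N : ℝ) ^ x := fun x hx => Real.one_le_rpow hN1 hx
  have hmul : ∀ x y : ℝ, (N : ℝ) ^ x * (N : ℝ) ^ y = (N : ℝ) ^ (x + y) := fun x y =>
    (Real.rpow_add hN0 x y).symm
  have Zle : (Z : ℝ) ≤ (N : ℝ) ^ (1 / 3 - η) := fl_le _ (by positivity)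
  have Yle : (Y : ℝ) ≤ (N : ℝ) ^ (1 / 3 - 2 * η) := fl_le _ (by positivity)
  have Ule : (U : ℝ) ≤ (N : ℝ) ^ (1 / 3 - 4 * η) := fl_le _ (by positivity)
  have Zge : (N : ℝ) ^ (1 / 3 - η) / 2 ≤ Z := fl_ge _ (one_le _ (by linarith))
  have Yge : (N : ℝ) ^ (1 / 3 - 2 * η) / 2 ≤ Y := fl_ge _ (one_le _ (by linarith))
  have Uge : (N : ℝ) ^ (1 / 3 - 4 * η) / 2 ≤ U := fl_ge _ (one_le _ (by linarith))
  have hZS : 1 + (Z : ℝ) * S ≤ 2 * (N : ℝ) ^ (1 / 3 : ℝ) := by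
    have h1 : (Z : ℝ) * S ≤ (N : ℝ) ^ (1 / 3 - η) * (N : ℝ) ^ η :=
      mul_le_mul Zle hS (by positivity) (by positivity)
    rw [hmul] at h1
    have h2 : (1 / 3 - η + η : ℝ) = 1 / 3 := by ring
    rw [h2] at h1
    have h3 := one_le (1 / 3) (by norm_num)
    linarith
  refine ⟨?_, ?_, ?_, ?_⟩
  · have h1 : ((2 * ((2 * p + 1) * Z) ^ 2 * (1 + Z * S) : ℕ) : ℝ) < (N : ℝ) := by
      push_cast
      have h2 : (Z : ℝ) ^ 2 ≤ (N : ℝ) ^ (2 / 3 - 2 * η) := by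
        calc (Z : ℝ) ^ 2 = Z * Z := by ring
          _ ≤ (N : ℝ) ^ (1 / 3 - η) * (N : ℝ) ^ (1 / 3 - η) :=
            mul_le_mul Zle Zle (by positivity) (by positivity)
          _ = _ := by rw [hmul]; ring_nf
      have h3 : (2 : ℝ) * ((2 * p + 1) * Z) ^ 2 * (1 + Z * S) ≤
          4 * (2 * p + 1) ^ 2 * (N : ℝ) ^ (1 - 2 * η) := by
        calc (2 : ℝ) * ((2 * p + 1) * Z) ^ 2 * (1 + Z * S)
            = 2 * (2 * p + 1) ^ 2 * ((Z : ℝ) ^ 2 * (1 + Z * S)) := by ring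
          _ ≤ 2 * (2 * p + 1) ^ 2 * ((N : ℝ) ^ (2 / 3 - 2 * η) * (2 * (N : ℝ) ^ (1 / 3 : ℝ))) := by
            apply mul_le_mul_of_nonneg_left _ (by positivity)
            exact mul_le_mul h2 hZS (by positivity) (by positivity)
          _ = 4 * (2 * p + 1) ^ 2 * ((N : ℝ) ^ (2 / 3 - 2 * η) * (N : ℝ) ^ (1 / 3 : ℝ)) := by ring
          _ = _ := by rw [hmul]; ring_nf
      have h4 : (0 : ℝ) < (2 * p + 1) ^ 2 * (N : ℝ) ^ (1 - 2 * η) := by positivity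
      rw [Real.rpow_one] at e1
      nlinarith
    exact_mod_cast h1
  · have h1 : ((2 * ((2 * p + 1) * Z) * (1 + Z * S) : ℕ) : ℝ) < ((Y ^ 3 : ℕ) : ℝ) := by
      push_cast
      have h3 : (2 : ℝ) * ((2 * p + 1) * Z) * (1 + Z * S) ≤
          4 * (2 * p + 1) * (N : ℝ) ^ (2 / 3 - η) := by
        calc (2 : ℝ) * ((2 * p + 1) * Z) * (1 + Z * S)
            = 2 * (2 * p + 1) * ((Z : ℝ) * (1 + Z * S)) := by ring
          _ ≤ 2 * (2 * p + 1) * ((N : ℝ) ^ (1 / 3 - η) * (2 * (N : ℝ) ^ (1 / 3 : ℝ))) := by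
            apply mul_le_mul_of_nonneg_left _ (by positivity)
            exact mul_le_mul Zle hZS (by positivity) (by positivity)
          _ = 4 * (2 * p + 1) * ((N : ℝ) ^ (1 / 3 - η) * (N : ℝ) ^ (1 / 3 : ℝ)) := by ring
          _ = _ := by rw [hmul]; ring_nf
      have h4 : (N : ℝ) ^ (1 - 6 * η) / 8 ≤ (Y : ℝ) ^ 3 := by
        have h5 : ((N : ℝ) ^ (1 / 3 - 2 * η) / 2) ^ 3 ≤ (Y : ℝ) ^ 3 :=
          pow_le_pow_left₀ (by positivity) Yge 3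
        have h6 : ((N : ℝ) ^ (1 / 3 - 2 * η) / 2) ^ 3 = (N : ℝ) ^ (1 - 6 * η) / 8 := by
          have : (N : ℝ) ^ (1 - 6 * η) =
              (N : ℝ) ^ (1 / 3 - 2 * η) * (N : ℝ) ^ (1 / 3 - 2 * η) * (N : ℝ) ^ (1 / 3 - 2 * η) := by
            rw [hmul, hmul]; ring_nf
          rw [this]; ring
        linarith
      have h7 : (0 : ℝ) < (2 * p + 1) * (N : ℝ) ^ (2 / 3 - η) := by positivity
      nlinarith
    exact_mod_cast h1
  · have h1 : ((P * (U + 1) : ℕ) : ℝ) ≤ (Y : ℝ) := by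
      push_cast
      have h2 : (U : ℝ) + 1 ≤ 2 * (N : ℝ) ^ (1 / 3 - 4 * η) := by
        have h3 := one_le (1 / 3 - 4 * η) (by linarith)
        rw [two_mul]
        exact add_le_add Ule h3
      calc (P : ℝ) * (U + 1) ≤ (N : ℝ) ^ η * (2 * (N : ℝ) ^ (1 / 3 - 4 * η)) :=
            mul_le_mul hP h2 (by positivity) (by positivity)
        _ = 2 * ((N : ℝ) ^ η * (N : ℝ) ^ (1 / 3 - 4 * η)) := by ring
        _ = 2 * (N : ℝ) ^ (1 / 3 - 3 * η) := by rw [hmul]; ring_nf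
        _ ≤ (N : ℝ) ^ (1 / 3 - 2 * η) / 2 := by linarith
        _ ≤ Y := Yge
    exact_mod_cast h1
  · have hpi2 : (N : ℝ) ^ (1 / 3 - 7 / 6 * η) / 2 ≤ (Nat.primeCounting Z : ℝ) := by
      refine le_trans ?_ hpi
      have h1 : ((N : ℝ) ^ (1 / 3 - η) / 2) ^ (1 - η / 2) ≤ (Z : ℝ) ^ (1 - η / 2) :=
        Real.rpow_le_rpow (by positivity) Zge (by linarith)
      refine le_trans ?_ h1
      rw [Real.div_rpow (by positivity) (by norm_num), ← Real.rpow_mul hN0.le]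
      have h2 : (2 : ℝ) ^ (1 - η / 2) ≤ 2 := by
        calc (2 : ℝ) ^ (1 - η / 2) ≤ (2 : ℝ) ^ (1 : ℝ) :=
              Real.rpow_le_rpow_of_exponent_le (by norm_num) (by linarith)
          _ = 2 := Real.rpow_one 2
      have h3 : (N : ℝ) ^ (1 / 3 - 7 / 6 * η) ≤ (N : ℝ) ^ ((1 / 3 - η) * (1 - η / 2)) :=
        Real.rpow_le_rpow_of_exponent_le hN1 (by nlinarith)
      calc (N : ℝ) ^ (1 / 3 - 7 / 6 * η) / 2 ≤ (N : ℝ) ^ ((1 / 3 - η) * (1 - η / 2)) / 2 := by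
            linarith
        _ ≤ _ := div_le_div_of_nonneg_left (by positivity) (by positivity) h2
    have hA : (N : ℝ) ^ (1 / 3 - 2 * η) ≤ ((Nat.primeCounting Z - Y - k - 1 : ℕ) : ℝ) := by
      have h1 : ((Nat.primeCounting Z : ℕ) : ℝ) - Y - k - 1 ≤
          ((Nat.primeCounting Z - Y - k - 1 : ℕ) : ℝ) := by
        have : ∀ a b c : ℕ, (a : ℝ) - b - c - 1 ≤ ((a - b - c - 1 : ℕ) : ℝ) := by
          intro a b c
          have : a ≤ (a - b - c - 1) + b + c + 1 := by omega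
          have h : ((a : ℕ) : ℝ) ≤ (((a - b - c - 1) + b + c + 1 : ℕ) : ℝ) := by exact_mod_cast this
          push_cast at h
          linarith
        exact this _ _ _
      have h2 : (1 : ℝ) ≤ (N : ℝ) ^ η := one_le _ hη.le
      linarith
    have hB : (N : ℝ) ^ (1 / 3 - 5 * η) ≤ ((U - 4 * k : ℕ) : ℝ) := by
      have h1 : (U : ℝ) - 4 * k ≤ ((U - 4 * k : ℕ) : ℝ) := by
        have : U ≤ (U - 4 * k) + 4 * k := by omega
        have h : ((U : ℕ) : ℝ) ≤ (((U - 4 * k) + 4 * k : ℕ) : ℝ) := by exact_mod_cast this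
        push_cast at h
        linarith
      linarith
    push_cast
    calc 4 * ((N : ℝ) ^ (2 / 3 - ε) + 1) ≤ (N : ℝ) ^ (2 / 3 - 7 * η) := by
          rw [Real.rpow_zero] at e10
          linarith
      _ = (N : ℝ) ^ (1 / 3 - 2 * η) * (N : ℝ) ^ (1 / 3 - 5 * η) := by rw [hmul]; ring_nf
      _ ≤ _ := mul_le_mul hA hB (by positivity) (by positivity)

end Pool.Agent.TTh
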