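import Mathlib

/-!
# TTh/Avoid: integers avoiding at most two classes modulo each prime of a finite set

`Q` is a finite set of `k` primes, `B q` a set of at most two forbidden residues modulo `q`, not all
residues are forbidden.  With `P = primorial (4 k)` at least `U / 2 - 2 k` of the integers
`s < P (U + 1)` avoid all forbidden classes.

PROOF.  Chinese remainder theorem: choose `c < P` (or `c` arbitrary reduced modulo `P`) with
`c % q ∉ B q` for all `q ∈ Q` with `q ≤ 4 k` (these primes divide `P`; `Nat.chineseRemainderOfFinset`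
or induction).  Look at the `U` numbers `s = c + P u`, `u < U`; they are `< P (U + 1)`.  For
`q ∈ Q`, `q ≤ 4 k`: `s ≡ c` modulo `q`.  For `q ∈ Q`, `q > 4 k`: `q` does not divide `P`, so for
each `r ∈ B q` the `u` with `c + P u ≡ r` modulo `q` form one class modulo `q`, at most `U / q + 1`
of them are `< U`.  Total number of bad `u`: at most `∑_{q > 4k} 2 (U / q + 1) ≤ U / 2 + 2 k`
(real numbers, `1 / q ≤ 1 / (4 k)`).
Mathlib: `primorial n = ∏ primes ≤ n`, `Nat.count_modEq_card`, `Nat.Prime.dvd_primorial` or similar.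
-/

namespace Pool.Agent.TTh

/-- one residue class modulo `q`, pulled back along `u ↦ c + P u` with `P` prime to `q` -/
private theorem class_card {P q : ℕ} (c r U : ℕ) (hq : 0 < q) (hPq : Nat.Coprime q P) :
    ((Finset.range U).filter fun u => (c + P * u) % q = r).card ≤ U / q + 1 := by
  have h : ((Finset.range U).filter fun u => (c + P * u) % q = r).card ≤
      (Finset.range (U / q + 1)).card := by
    apply Finset.card_le_card_of_injOn (fun u => u / q)
    · intro u hu
      have hu1 : u < U := by
        have := (Finset.mem_filter.mp (Finset.mem_coe.mp hu)).1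
        simpa using this
      simp only [Finset.coe_range, Set.mem_Iio]
      exact Nat.lt_succ_of_le (Nat.div_le_div_right hu1.le)
    · intro u hu v hv huv
      have hu2 := (Finset.mem_filter.mp (Finset.mem_coe.mp hu)).2
      have hv2 := (Finset.mem_filter.mp (Finset.mem_coe.mp hv)).2
      have hmod : (c + P * u) ≡ (c + P * v) [MOD q] := by
        show (c + P * u) % q = (c + P * v) % q
        rw [hu2, hv2]
      have h1 : P * u ≡ P * v [MOD q] := Nat.ModEq.add_left_cancel' c hmod
      have h2 : u ≡ v [MOD q] := Nat.ModEq.cancel_left_of_coprime hPq h1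
      have h3 : u % q = v % q := h2
      have huv' : u / q = v / q := huv
      rw [← Nat.div_add_mod u q, ← Nat.div_add_mod v q, h3, huv']
  simpa using h

theorem avoid_count (Q : Finset ℕ) (hQ : ∀ q ∈ Q, q.Prime) (B : ℕ → Finset ℕ)
    (hB2 : ∀ q ∈ Q, (B q).card ≤ 2) (hBne : ∀ q ∈ Q, ∃ r < q, r ∉ B q) (U : ℕ) :
    U ≤ 2 * ((Finset.range (primorial (4 * Q.card) * (U + 1))).filter
      fun s => ∀ q ∈ Q, s % q ∉ B q).card + 4 * Q.card := by
  classical
  set k := Q.card with hk
  set P := primorial (4 * k) with hP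
  have hPpos : 0 < P := primorial_pos _
  -- a good residue for every prime
  have hr : ∀ q, ∃ r, q ∈ Q → r < q ∧ r ∉ B q := by
    intro q
    by_cases hq : q ∈ Q
    · obtain ⟨r, h1, h2⟩ := hBne q hq
      exact ⟨r, fun _ => ⟨h1, h2⟩⟩
    · exact ⟨0, fun h => absurd h hq⟩
  choose a ha using hr
  -- CRT
  obtain ⟨c0, hc0⟩ := Nat.chineseRemainderOfFinset a (fun q => q) Q
    (fun q hq => (hQ q hq).ne_zero)
    (fun q hq q' hq' hne => (Nat.coprime_primes (hQ q hq) (hQ q' hq')).mpr hne)
  let c := c0 % P
  have hcP : c < P := Nat.mod_lt _ hPpos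
  have hc : ∀ q ∈ Q, q ≤ 4 * k → c % q = a q := by
    intro q hq hle
    have hdvd : q ∣ P := (hQ q hq).dvd_primorial_iff.mpr hle
    have h1 : c % q = c0 % q := Nat.mod_mod_of_dvd c0 hdvd
    have h2 : c0 % q = a q % q := hc0 q hq
    rw [h1, h2, Nat.mod_eq_of_lt (ha q hq).1]
  -- the good `u`
  have hgood : ((Finset.range U).filter fun u => ∀ q ∈ Q, (c + P * u) % q ∉ B q).card ≤
      ((Finset.range (P * (U + 1))).filter fun s => ∀ q ∈ Q, s % q ∉ B q).card := by
    apply Finset.card_le_card_of_injOn (fun u => c + P * u)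
    · intro u hu
      obtain ⟨hu1, hu2⟩ := Finset.mem_filter.mp (Finset.mem_coe.mp hu)
      rw [Finset.mem_range] at hu1
      simp only [Finset.coe_filter, Finset.mem_range, Set.mem_setOf_eq]
      refine ⟨?_, hu2⟩
      have : P * (u + 1) ≤ P * (U + 1) := Nat.mul_le_mul_left P (by omega)
      nlinarith
    · intro u _ v _ huv
      have huv' : c + P * u = c + P * v := huv
      exact Nat.eq_of_mul_eq_mul_left hPpos (Nat.add_left_cancel huv')
  -- the bad `u`
  have hbad : ((Finset.range U).filter fun u => ¬ ∀ q ∈ Q, (c + P * u) % q ∉ B q).card ≤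
      k * (2 * (U / (4 * k) + 1)) := by
    have hsub : ((Finset.range U).filter fun u => ¬ ∀ q ∈ Q, (c + P * u) % q ∉ B q) ⊆
        (Q.filter fun q => 4 * k < q).biUnion fun q => (B q).biUnion fun r =>
          (Finset.range U).filter fun u => (c + P * u) % q = r := by
      intro u hu
      obtain ⟨hu1, hu2⟩ := Finset.mem_filter.mp hu
      push Not at hu2
      obtain ⟨q, hq, hqB⟩ := hu2
      have hlt : 4 * k < q := by
        by_contra hle
        rw [not_lt] at hle
        have hdvd : q ∣ P := (hQ q hq).dvd_primorial_iff.mpr hle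
        have h1 : (c + P * u) % q = c % q := by
          obtain ⟨d, hd⟩ := hdvd
          rw [hd, mul_assoc, Nat.add_mul_mod_self_left]
        rw [h1, hc q hq hle] at hqB
        exact (ha q hq).2 hqB
      simp only [Finset.mem_biUnion, Finset.mem_filter]
      exact ⟨q, ⟨hq, hlt⟩, (c + P * u) % q, hqB, hu1, rfl⟩
    refine (Finset.card_le_card hsub).trans ?_
    refine Finset.card_biUnion_le.trans ?_
    have hterm : ∀ q ∈ Q.filter (fun q => 4 * k < q), ((B q).biUnion fun r =>
          (Finset.range U).filter fun u => (c + P * u) % q = r).card ≤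
          2 * (U / (4 * k) + 1) := by
      intro q hq
      obtain ⟨hq1, hq2⟩ := Finset.mem_filter.mp hq
      have hkpos : 0 < k := Finset.card_pos.mpr ⟨q, hq1⟩
      have hcop : Nat.Coprime q P := by
        rw [Nat.Prime.coprime_iff_not_dvd (hQ q hq1), (hQ q hq1).dvd_primorial_iff]
        omega
      refine Finset.card_biUnion_le.trans ?_
      calc ∑ r ∈ B q, ((Finset.range U).filter fun u => (c + P * u) % q = r).card
          ≤ ∑ _r ∈ B q, (U / q + 1) :=
            Finset.sum_le_sum fun r _ => class_card c r U (hQ q hq1).pos hcop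
        _ = (B q).card * (U / q + 1) := by rw [Finset.sum_const, smul_eq_mul]
        _ ≤ 2 * (U / (4 * k) + 1) := by
            apply Nat.mul_le_mul (hB2 q hq1)
            exact Nat.succ_le_succ (Nat.div_le_div_left hq2.le (by omega))
    refine (Finset.sum_le_card_nsmul _ _ _ hterm).trans ?_
    rw [smul_eq_mul]
    exact Nat.mul_le_mul_right _ (Finset.card_filter_le _ _)
  have hsum := Finset.card_filter_add_card_filter_not (s := Finset.range U)
    (fun u => ∀ q ∈ Q, (c + P * u) % q ∉ B q)
  rw [Finset.card_range] at hsum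
  have hdiv : 4 * k * (U / (4 * k)) ≤ U := Nat.mul_div_le U (4 * k)
  have h4 : 2 * (k * (2 * (U / (4 * k) + 1))) = 4 * k * (U / (4 * k)) + 4 * k := by ring
  omega

end Pool.Agent.TTh
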