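import Mathlib

/-!
# TTh/Diff: the half sum `Fh` and the difference of two columns

`h : ℕ → K` depends on the class modulo `p` and is nonzero exactly at the integers prime to `p`.
`Fh p N h x = ∑ h (y)` over the `y = x + N i`, `i < p`, with `2 y < N p`.

Let `z` be odd, prime to `N` and `p`, `w, v > 0`, `w' = w + t p z`, `v w' < N`, and let `b, b' < N` be
the residues of `v w / z`, `v w' / z` modulo `N`.

PROOF.  `z b = v w + k N` with `0 ≤ k < z` (as `0 ≤ v w < N`, `0 ≤ b < N`), `z b' = v w' + k' N`, and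
`z (b' - b) = v t p z + (k' - k) N`, so `z ∣ k' - k` and `k' = k`, `b' = b + v t p`.  So
`h (b' + N i) = h (b + N i)` for all `i`, and `Fh b - Fh b'` is the sum of `h (b + N i)` over the
`i < p` with `2 (b + N i) < N p ≤ 2 (b' + N i)`.  Multiply by `z`: `2 v w + 2 k N + 2 N i z < N p z ≤
2 v w' + 2 k N + 2 N i z`, and `0 < 2 v w ≤ 2 v w' < 2 N`; so with the odd integer
`o = p z - 2 k - 2 i z` we need `2 v w < N o ≤ 2 v w' < 2 N`, so `o = 1`, that is
`2 k + 1 = z (p - 2 i)`, and `0 < 2 k + 1 < 2 z` forces `p - 2 i = 1` and `2 k + 1 = z`.  So the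
difference is zero unless `2 k + 1 = z` and `2 v w < N ≤ 2 v w'`, and then it is
`h (b + N (p - 1) / 2)`.  `2 k + 1 = z` is equivalent to `z ∣ 2 v w - N`: `z b = v w + k N` gives
`2 v w - N ≡ - (2 k + 1) N` modulo `z`, and `1 ≤ 2 k + 1 < 2 z`, odd.  Finally
`2 z (b + N (p - 1) / 2) = 2 v w + (2 k - z) N + N p z = 2 v w - N + N p z`, so (`p` odd, `p` prime to
`z`) `p ∣ b + N (p - 1) / 2` iff `p ∣ 2 v w - N`.
-/

namespace Pool.Agent.TTh

/-- `h` depends only on the class modulo `p` and is nonzero exactly on the integers prime to `p` -/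
structure Wt (p : ℕ) {K : Type} [Field K] (h : ℕ → K) : Prop where
  per : ∀ m, h (m + p) = h m
  ne : ∀ m, h m ≠ 0 ↔ ¬ p ∣ m

/-- the sum of `h` over the `y ≡ x` modulo `N`, `0 ≤ y < N p / 2` (for `x < N`) -/
def Fh (p N : ℕ) {K : Type} [Field K] (h : ℕ → K) (x : ℕ) : K :=
  ∑ i ∈ Finset.range p, if 2 * (x + N * i) < N * p then h (x + N * i) else 0

private theorem Wt.per_mul {p : ℕ} {K : Type} [Field K] {h : ℕ → K} (hh : Wt p h) (m j : ℕ) :
    h (m + j * p) = h m := by
  induction j with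
  | zero => simp
  | succ j ih =>
    have : m + (j + 1) * p = m + j * p + p := by ring
    rw [this, hh.per, ih]

/-- the arithmetic of the two columns -/
private theorem col_arith {p N : ℕ} (hN : 0 < N) {z v w t b b' : ℕ} (hz : Odd z)
    (hzN : z.Coprime N) (hb : b < N) (hb' : b' < N)
    (hbz : z * b ≡ v * w [MOD N]) (hbz' : z * b' ≡ v * (w + t * p * z) [MOD N])
    (hlt : v * (w + t * p * z) < N) :
    ∃ k : ℕ, k < z ∧ z * b = v * w + N * k ∧ z * b' = v * (w + t * p * z) + N * k ∧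
      b' = b + v * t * p := by
  have hz0 : 0 < z := hz.pos
  have hA : v * w < N := lt_of_le_of_lt (Nat.mul_le_mul_left v (Nat.le_add_right _ _)) hlt
  have e1 : z * b = v * w + N * (z * b / N) := by
    have h1 := Nat.mod_add_div (z * b) N
    have h2 : z * b % N = v * w := by
      rw [hbz]
      exact Nat.mod_eq_of_lt hA
    rw [h2] at h1
    exact h1.symm
  have e2 : z * b' = v * (w + t * p * z) + N * (z * b' / N) := by
    have h1 := Nat.mod_add_div (z * b') N
    have h2 : z * b' % N = v * (w + t * p * z) := by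
      rw [hbz']
      exact Nat.mod_eq_of_lt hlt
    rw [h2] at h1
    exact h1.symm
  have k1 : z * b / N < z := Nat.div_lt_of_lt_mul (by
    rw [mul_comm N z]
    exact Nat.mul_lt_mul_of_pos_left hb hz0)
  have k2 : z * b' / N < z := Nat.div_lt_of_lt_mul (by
    rw [mul_comm N z]
    exact Nat.mul_lt_mul_of_pos_left hb' hz0)
  generalize z * b / N = k at e1 k1
  generalize z * b' / N = k' at e2 k2
  have hkk : (k' : ℤ) - k = 0 := by
    apply Int.eq_zero_of_abs_lt_dvd (m := (z : ℤ))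
    · have h1 : ((k' : ℤ) - k) * N = z * ((b' : ℤ) - b - v * t * p) := by
        have f1 : (z : ℤ) * b = v * w + N * k := by exact_mod_cast e1
        have f2 : (z : ℤ) * b' = v * (w + t * p * z) + N * k' := by exact_mod_cast e2
        linear_combination f1 - f2
      have h2 : (z : ℤ) ∣ ((k' : ℤ) - k) * N := by
        rw [h1]
        exact dvd_mul_right _ _
      exact (Nat.isCoprime_iff_coprime.2 hzN).dvd_of_dvd_mul_right h2
    · rw [abs_lt]
      constructor <;> omega
  have hk : k' = k := by omega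
  rw [hk] at e2
  refine ⟨k, k1, e1, e2, ?_⟩
  apply Nat.eq_of_mul_eq_mul_left hz0
  have e4 : z * (b + v * t * p) = z * b + z * (v * t * p) := by ring
  rw [e4, e2, e1]
  ring

/-- the difference of the two half sums -/
private theorem Fh_diff {p N : ℕ} (hp : p.Prime) (hp2 : p ≠ 2) {K : Type} [Field K]
    {h : ℕ → K} (hh : Wt p h) {z v w t b b' k : ℕ} (hz : Odd z) (hv : 0 < v) (hw : 0 < w)
    (hlt : v * (w + t * p * z) < N) (hk : k < z) (e1 : z * b = v * w + N * k)
    (e2 : z * b' = v * (w + t * p * z) + N * k) (e3 : b' = b + v * t * p) :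
    Fh p N h b = Fh p N h b' +
      (if 2 * k + 1 = z ∧ 2 * (v * w) < N ∧ N ≤ 2 * (v * (w + t * p * z))
        then h (b + N * (p / 2)) else 0) := by
  have hz0 : 0 < z := hz.pos
  have hpo : p % 2 = 1 := (hp.eq_two_or_odd).resolve_left hp2
  have hAA : v * w ≤ v * (w + t * p * z) := Nat.mul_le_mul_left v (Nat.le_add_right _ _)
  have hA0 : 0 < v * w := Nat.mul_pos hv hw
  have hbb : b ≤ b' := by
    rw [e3]
    exact Nat.le_add_right _ _
  have hi0 : p / 2 < p := Nat.div_lt_self hp.pos (by norm_num)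
  have hsum : (if 2 * k + 1 = z ∧ 2 * (v * w) < N ∧ N ≤ 2 * (v * (w + t * p * z))
      then h (b + N * (p / 2)) else 0) = ∑ i ∈ Finset.range p,
        if i = p / 2 then (if 2 * k + 1 = z ∧ 2 * (v * w) < N ∧ N ≤ 2 * (v * (w + t * p * z))
          then h (b + N * i) else 0) else 0 := by
    rw [Finset.sum_ite_eq' (Finset.range p) (p / 2), if_pos (Finset.mem_range.2 hi0)]
  rw [hsum]
  unfold Fh
  rw [← Finset.sum_add_distrib]
  refine Finset.sum_congr rfl fun i _ => ?_
  have hper : h (b' + N * i) = h (b + N * i) := by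
    have : b' + N * i = b + N * i + (v * t) * p := by rw [e3]; ring
    rw [this, hh.per_mul]
  rw [hper]
  generalize v * (w + t * p * z) = A' at *
  generalize v * w = A at *
  have hfwd : 2 * (b + N * i) < N * p → ¬ 2 * (b' + N * i) < N * p →
      i = p / 2 ∧ 2 * k + 1 = z ∧ 2 * A < N ∧ N ≤ 2 * A' := by
    intro c2 c1
    rw [not_lt] at c1
    have g1 : z * (2 * (b + N * i)) < z * (N * p) := Nat.mul_lt_mul_of_pos_left c2 hz0
    have g2 : z * (N * p) ≤ z * (2 * (b' + N * i)) := Nat.mul_le_mul_left z c1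
    have f1 : (z : ℤ) * b = A + N * k := by exact_mod_cast e1
    have f2 : (z : ℤ) * b' = A' + N * k := by exact_mod_cast e2
    have g1' : (z : ℤ) * (2 * (b + N * i)) < z * (N * p) := by exact_mod_cast g1
    have g2' : (z : ℤ) * (N * p) ≤ z * (2 * (b' + N * i)) := by exact_mod_cast g2
    have hN' : (A' : ℤ) < N := by exact_mod_cast hlt
    have hA' : (0 : ℤ) < A := by exact_mod_cast hA0
    have hNp : (0 : ℤ) < N := by
      have : (0 : ℤ) ≤ A' := Int.natCast_nonneg _
      linarith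
    have o1 : (2 : ℤ) * A < N * (p * z - 2 * k - 2 * i * z) := by nlinarith
    have o2 : (N : ℤ) * (p * z - 2 * k - 2 * i * z) ≤ 2 * A' := by nlinarith
    have o3 : (0 : ℤ) < p * z - 2 * k - 2 * i * z := by
      by_contra hc
      rw [not_lt] at hc
      have := mul_nonpos_of_nonneg_of_nonpos hNp.le hc
      linarith
    have o4 : (p : ℤ) * z - 2 * k - 2 * i * z < 2 := by
      by_contra hc
      rw [not_lt] at hc
      have := mul_le_mul_of_nonneg_left hc hNp.le
      linarith
    have o5 : (p : ℤ) * z - 2 * k - 2 * i * z = 1 := by omega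
    rw [o5, mul_one] at o1 o2
    have o6 : (z : ℤ) * (p - 2 * i) = 2 * k + 1 := by linear_combination o5
    have hzp : (0 : ℤ) < z := by exact_mod_cast hz0
    have hkz : (k : ℤ) < z := by exact_mod_cast hk
    have o7 : (0 : ℤ) < p - 2 * i := by
      by_contra hc
      rw [not_lt] at hc
      have := mul_nonpos_of_nonneg_of_nonpos hzp.le hc
      omega
    have o8 : (p : ℤ) - 2 * i < 2 := by
      by_contra hc
      rw [not_lt] at hc
      have := mul_le_mul_of_nonneg_left hc hzp.le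
      omega
    have o9 : (p : ℤ) - 2 * i = 1 := by omega
    rw [o9, mul_one] at o6
    refine ⟨by omega, by omega, by omega, by omega⟩
  have hbwd : i = p / 2 → 2 * k + 1 = z → 2 * A < N → N ≤ 2 * A' →
      2 * (b + N * i) < N * p ∧ ¬ 2 * (b' + N * i) < N * p := by
    intro hi hkz h1 h2
    have hp' : p = 2 * i + 1 := by omega
    have g1 : 2 * b < N := by
      by_contra hc
      rw [not_lt] at hc
      have := Nat.mul_le_mul_left z hc
      have h3 : z * (2 * b) = 2 * A + N * (2 * k) := by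
        calc z * (2 * b) = 2 * (z * b) := by ring
          _ = _ := by rw [e1]; ring
      rw [h3, ← hkz] at this
      have h4 : (2 * k + 1) * N = N * (2 * k) + N := by ring
      omega
    have g2 : N ≤ 2 * b' := by
      by_contra hc
      rw [not_le] at hc
      have := Nat.mul_lt_mul_of_pos_left hc hz0
      have h3 : z * (2 * b') = 2 * A' + N * (2 * k) := by
        calc z * (2 * b') = 2 * (z * b') := by ring
          _ = _ := by rw [e2]; ring
      rw [h3, ← hkz] at this
      have h4 : (2 * k + 1) * N = N * (2 * k) + N := by ring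
      omega
    rw [hp']
    have h5 : N * (2 * i + 1) = 2 * (N * i) + N := by ring
    rw [h5]
    omega
  by_cases c1 : 2 * (b' + N * i) < N * p
  · have c2 : 2 * (b + N * i) < N * p := by omega
    have hn : ¬ (i = p / 2 ∧ 2 * k + 1 = z ∧ 2 * A < N ∧ N ≤ 2 * A') := fun hx =>
      (hbwd hx.1 hx.2.1 hx.2.2.1 hx.2.2.2).2 c1
    rw [if_pos c1, if_pos c2]
    by_cases hi : i = p / 2
    · rw [if_pos hi, if_neg (fun hx => hn ⟨hi, hx⟩), add_zero]
    · rw [if_neg hi, add_zero]
  · rw [if_neg c1]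
    by_cases c2 : 2 * (b + N * i) < N * p
    · obtain ⟨hi, hx⟩ := hfwd c2 c1
      rw [if_pos c2, if_pos hi, if_pos hx, zero_add]
    · rw [if_neg c2]
      by_cases hi : i = p / 2
      · rw [if_pos hi, if_neg (fun hx => c2 (hbwd hi hx.1 hx.2.1 hx.2.2).1), add_zero]
      · rw [if_neg hi, add_zero]

private theorem z_dvd_iff {N z v w b k : ℕ} (hz : 0 < z) (hzN : z.Coprime N) (hk : k < z)
    (e1 : z * b = v * w + N * k) : (z : ℤ) ∣ 2 * v * w - N ↔ 2 * k + 1 = z := by
  have f1 : (z : ℤ) * b = v * w + N * k := by exact_mod_cast e1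
  have h1 : (2 : ℤ) * v * w - N = z * (2 * b) - (2 * k + 1) * N := by linear_combination (-2) * f1
  rw [h1, dvd_sub_right (dvd_mul_right _ _)]
  constructor
  · intro h2
    have h3 : (z : ℤ) ∣ 2 * k + 1 :=
      (Nat.isCoprime_iff_coprime.2 hzN).dvd_of_dvd_mul_right h2
    obtain ⟨j, hj⟩ := h3
    have hzp : (0 : ℤ) < z := by exact_mod_cast hz
    have hkz : (k : ℤ) < z := by exact_mod_cast hk
    have hj0 : 0 < j := by
      by_contra hc
      rw [not_lt] at hc
      have := mul_nonpos_of_nonneg_of_nonpos hzp.le hc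
      omega
    have hj2 : j < 2 := by
      by_contra hc
      rw [not_lt] at hc
      have := mul_le_mul_of_nonneg_left hc hzp.le
      omega
    have hj1 : j = 1 := by omega
    rw [hj1, mul_one] at hj
    omega
  · intro h2
    have h3 : (2 : ℤ) * k + 1 = z := by exact_mod_cast h2
    rw [h3]
    exact dvd_mul_right _ _

private theorem p_dvd_iff {p N z v w b k : ℕ} (hp : p.Prime) (hp2 : p ≠ 2) (hpz : ¬ p ∣ z)
    (e1 : z * b = v * w + N * k) (h2 : 2 * k + 1 = z) :
    p ∣ b + N * (p / 2) ↔ (p : ℤ) ∣ 2 * v * w - N := by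
  have hpo : p % 2 = 1 := (hp.eq_two_or_odd).resolve_left hp2
  have f1 : (z : ℤ) * b = v * w + N * k := by exact_mod_cast e1
  have f2 : (2 : ℤ) * k + 1 = z := by exact_mod_cast h2
  have f3 : (2 : ℤ) * (p / 2 : ℕ) + 1 = p := by omega
  have h3 : (2 : ℤ) * v * w - N = (2 * z) * ((b + N * (p / 2) : ℕ) : ℤ) - p * (N * z) := by
    push_cast
    push_cast at f3
    linear_combination (-2) * f1 - (N : ℤ) * f2 - (N * z : ℤ) * f3
  rw [h3, dvd_sub_left (dvd_mul_right _ _)]
  have hpi : Prime (p : ℤ) := Nat.prime_iff_prime_int.1 hp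
  constructor
  · intro h4
    exact (Int.natCast_dvd_natCast.2 h4).mul_left _
  · intro h4
    rcases hpi.dvd_or_dvd h4 with h5 | h5
    · exfalso
      rcases hpi.dvd_or_dvd h5 with h6 | h6
      · have h7 : p ∣ 2 := by exact_mod_cast h6
        exact hp2 ((Nat.prime_dvd_prime_iff_eq hp Nat.prime_two).1 h7)
      · exact hpz (Int.natCast_dvd_natCast.1 h6)
    · exact Int.natCast_dvd_natCast.1 h5

theorem Fh_eq {p N : ℕ} (hp : p.Prime) (hp2 : p ≠ 2) (hN : 0 < N) {K : Type} [Field K]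
    {h : ℕ → K} (hh : Wt p h) {z v w t b b' : ℕ} (hz : Odd z) (hzN : z.Coprime N)
    (hpz : ¬ p ∣ z) (hv : 0 < v) (hw : 0 < w) (hb : b < N) (hb' : b' < N)
    (hbz : z * b ≡ v * w [MOD N]) (hbz' : z * b' ≡ v * (w + t * p * z) [MOD N])
    (hlt : v * (w + t * p * z) < N)
    (hc : 2 * v * (w + t * p * z) < N ∨ ¬ (z : ℤ) ∣ 2 * v * w - N ∨ (p : ℤ) ∣ 2 * v * w - N) :
    Fh p N h b' = Fh p N h b := by
  obtain ⟨k, hk, e1, e2, e3⟩ := col_arith hN hz hzN hb hb' hbz hbz' hlt
  have hd := Fh_diff hp hp2 hh hz hv hw hlt hk e1 e2 e3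
  rw [hd]
  split_ifs with hx
  · have h5 : h (b + N * (p / 2)) = 0 := by
      by_contra hne
      have h6 := (hh.ne _).1 hne
      rw [p_dvd_iff hp hp2 hpz e1 hx.1] at h6
      rcases hc with hc | hc | hc
      · have h7 : 2 * (v * (w + t * p * z)) < N := by
          rw [← mul_assoc]
          exact hc
        omega
      · exact hc ((z_dvd_iff hz.pos hzN hk e1).2 hx.1)
      · exact h6 hc
    rw [h5, add_zero]
  · rw [add_zero]

theorem Fh_ne {p N : ℕ} (hp : p.Prime) (hp2 : p ≠ 2) (hN : 0 < N) {K : Type} [Field K]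
    {h : ℕ → K} (hh : Wt p h) {z v w t b b' : ℕ} (hz : Odd z) (hzN : z.Coprime N)
    (hpz : ¬ p ∣ z) (hv : 0 < v) (hw : 0 < w) (hb : b < N) (hb' : b' < N)
    (hbz : z * b ≡ v * w [MOD N]) (hbz' : z * b' ≡ v * (w + t * p * z) [MOD N])
    (hlt : v * (w + t * p * z) < N) (h1 : 2 * v * w < N) (h2 : N ≤ 2 * v * (w + t * p * z))
    (h3 : (z : ℤ) ∣ 2 * v * w - N) (h4 : ¬ (p : ℤ) ∣ 2 * v * w - N) :
    Fh p N h b' ≠ Fh p N h b := by
  obtain ⟨k, hk, e1, e2, e3⟩ := col_arith hN hz hzN hb hb' hbz hbz' hlt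
  have hd := Fh_diff hp hp2 hh hz hv hw hlt hk e1 e2 e3
  have hkz := (z_dvd_iff hz.pos hzN hk e1).1 h3
  have hx : 2 * k + 1 = z ∧ 2 * (v * w) < N ∧ N ≤ 2 * (v * (w + t * p * z)) := by
    refine ⟨hkz, ?_, ?_⟩
    · rw [← mul_assoc]
      exact h1
    · rw [← mul_assoc]
      exact h2
  rw [if_pos hx] at hd
  intro heq
  rw [heq] at hd
  have h5 : h (b + N * (p / 2)) = 0 := by
    have h6 : Fh p N h b + 0 = Fh p N h b + h (b + N * (p / 2)) := by
      rw [add_zero]
      exact hd
    exact (add_left_cancel h6).symm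
  have h6 : h (b + N * (p / 2)) ≠ 0 := by
    rw [hh.ne, p_dvd_iff hp hp2 hpz e1 hkz]
    exact h4
  exact h6 h5

end Pool.Agent.TTh
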