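import Pool.Agent.TTh.Win

/-!
# TTh/Pairs: many distinct pivots

PROOF.  `T` = the primes `z` with `Y < z ≤ Z`, `z ≠ 2`, not dividing `N p`: at least
`π(Z) - Y - kk - 1` of them.  For `z ∈ T` let `W_z` be the set of `card_w` (all `w ∈ W_z` are
`< Y < z`), `2 |W_z| + 4 kk ≥ U`.  For a pair `(z, w)`, `z ∈ T`, `w ∈ W_z`, put `w' = w + 2 p z`
(`≤ (2 p + 1) Z`, prime to `N`) and let `v = v (z, w)` be the smallest `v` with `Piv p N z w v`
(`exists_piv`, `Nat.find`).  Then `N ≤ 2 v w' < N + 2 w' (1 + z S)`, `S = Sw p N`.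
* `v w' < N` because `2 w' (1 + z S) < N` by `h1`.
* `2 v w < N`: `2 v w = 2 v w' - 4 v p z` and `2 w' (1 + z S) ≤ 4 v p z` since (times `w'`)
  `2 w' ^ 2 (1 + z S) < N ≤ 2 v w' ≤ 4 v w' p z`.
* `P` = the set of all `v (z, w)`.  Every `v` comes from at most two pairs: let `(z, w)`, `(z₁, w₁)`
  have the same `v`.  If `w' < w₁'` then `N + 2 v ≤ 2 v (w' + 1) ≤ 2 v w₁' < N + 2 w₁' (1 + z₁ S)`, so
  `v < w₁' (1 + z₁ S)`, and `N ≤ 2 v w' < 2 w' w₁' (1 + z₁ S)` contradicts `h1`.  So `w' = w₁'`.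
  So three different pairs with the same `v` have the same `w'` and three different primes `z`, all
  dividing `n = 2 v w' - N` (`2 v w' - 2 v w = 4 v p z`).  `n ≠ 0`: otherwise `w' ∣ N`, but `w' > 1`
  is prime to `N`.  So `Y ^ 3 < z₁ z₂ z₃ ≤ n < 2 w' (1 + Z S)`, contradiction to `h2`.
So `∑_z |W_z| ≤ 2 |P|`.
-/

namespace Pool.Agent.TTh

namespace Pairs

/-- the primes used -/
def TT (p N Z Y : ℕ) : Finset ℕ :=
  (Finset.range (Z + 1)).filter fun z => Y < z ∧ z.Prime ∧ z ≠ 2 ∧ ¬ z ∣ N * p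

/-- the numbers `w` used with `z` -/
def WW (p N Y z : ℕ) : Finset ℕ :=
  (Finset.range Y).filter fun w => 0 < w ∧ ¬ p ∣ w ∧ w.Coprime N ∧ (w + 2 * p * z).Coprime N

open Classical in
/-- the pivot -/
noncomputable def VV (p N z w : ℕ) : ℕ :=
  if h : ∃ v, Piv p N z w v then Nat.find h else 0

theorem card_TT {p N Z Y : ℕ} (hp : p.Prime) (hN : 0 < N) :
    Nat.primeCounting Z - Y - kk p N - 1 ≤ (TT p N Z Y).card := by
  have h1 : Nat.primeCounting Z = ((Finset.range (Z + 1)).filter Nat.Prime).card := by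
    unfold Nat.primeCounting Nat.primeCounting'
    exact Nat.count_eq_card_filter_range _ _
  have h2 : (Finset.range (Z + 1)).filter Nat.Prime ⊆
      TT p N Z Y ∪ (Finset.Icc 1 Y ∪ ((N * p).primeFactors ∪ {2})) := by
    intro z hz
    rw [Finset.mem_filter, Finset.mem_range] at hz
    simp only [Finset.mem_union, TT, Finset.mem_filter, Finset.mem_range, Finset.mem_Icc,
      Nat.mem_primeFactors, Finset.mem_singleton]
    have hz0 := hz.2.pos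
    by_cases c1 : z = 2
    · right; right; right; exact c1
    by_cases c2 : z ∣ N * p
    · right; right; left
      exact ⟨hz.2, c2, Nat.mul_ne_zero hN.ne' hp.ne_zero⟩
    by_cases c3 : Y < z
    · left; exact ⟨hz.1, c3, hz.2, c1, c2⟩
    · right; left; omega
  have h3 := Finset.card_le_card h2
  have h4 := Finset.card_union_le (TT p N Z Y) (Finset.Icc 1 Y ∪ ((N * p).primeFactors ∪ {2}))
  have h5 := Finset.card_union_le (Finset.Icc 1 Y) ((N * p).primeFactors ∪ {2})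
  have h6 := Finset.card_union_le (N * p).primeFactors ({2} : Finset ℕ)
  have h7 : (Finset.Icc 1 Y).card = Y := by simp
  have h8 : ({2} : Finset ℕ).card = 1 := by simp
  have h9 : (N * p).primeFactors.card = kk p N := rfl
  omega

/-- all facts about one pair -/
theorem facts {p N Z Y : ℕ} (hp : p.Prime) (hp2 : p ≠ 2) (hN : 0 < N) (hpN : ¬ p ∣ N)
    (h1 : 2 * ((2 * p + 1) * Z) ^ 2 * (1 + Z * Sw p N) < N) {z w : ℕ}
    (hz : z ∈ TT p N Z Y) (hw : w ∈ WW p N Y z) :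
    Piv p N z w (VV p N z w) ∧ (∀ u, u < VV p N z w → ¬ Piv p N z w u) ∧
      2 * VV p N z w * (w + 2 * p * z) < N + 2 * (w + 2 * p * z) * (1 + Z * Sw p N) ∧
      w + 2 * p * z ≤ (2 * p + 1) * Z ∧ 1 < w + 2 * p * z ∧
      2 * VV p N z w * w < N ∧ VV p N z w * (w + 2 * p * z) < N := by
  simp only [TT, Finset.mem_filter, Finset.mem_range] at hz
  simp only [WW, Finset.mem_filter, Finset.mem_range] at hw
  obtain ⟨hzZ, hYz, hzp, hz2, hzd⟩ := hz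
  obtain ⟨hwY, hw0, hpw, hwN, hwN'⟩ := hw
  have hzN : ¬ z ∣ N := fun h => hzd (h.mul_right p)
  have hzp' : z ≠ p := fun h => hzd (h ▸ Dvd.intro_left N rfl)
  obtain ⟨v, hv, hvb⟩ := exists_piv hp hp2 hN hpN hzp hz2 hzN hzp' hw0 (hwY.trans hYz) hpw
  have hex : ∃ v, Piv p N z w v := ⟨v, hv⟩
  classical
  have hV : VV p N z w = Nat.find hex := by
    unfold VV
    rw [dif_pos hex]
  have hP : Piv p N z w (VV p N z w) := by
    rw [hV]
    exact Nat.find_spec hex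
  have hmin : ∀ u, u < VV p N z w → ¬ Piv p N z w u := by
    intro u hu
    rw [hV] at hu
    exact Nat.find_min hex hu
  have hVv : VV p N z w ≤ v := by
    rw [hV]
    exact Nat.find_min' hex hv
  have hwz : w ≤ z := by omega
  have hzZ' : z ≤ Z := by omega
  have hz1 : 1 ≤ z := hzp.one_lt.le
  have hp1 : 1 ≤ p := hp.one_lt.le
  obtain ⟨x, hx⟩ : ∃ x, x = w + 2 * p * z := ⟨_, rfl⟩
  have hxM : x ≤ (2 * p + 1) * Z := by
    rw [hx]
    calc w + 2 * p * z ≤ z + 2 * p * z := by omega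
      _ = (2 * p + 1) * z := by ring
      _ ≤ (2 * p + 1) * Z := Nat.mul_le_mul_left _ hzZ'
  have hpz : 1 ≤ p * z := Nat.mul_pos hp1 hz1
  have hx1 : 1 < x := by
    have e : 2 * p * z = 2 * (p * z) := by ring
    rw [hx, e]
    omega
  have hzS : 1 + z * Sw p N ≤ 1 + Z * Sw p N :=
    Nat.add_le_add_left (Nat.mul_le_mul_right _ hzZ') 1
  obtain ⟨A, hA⟩ : ∃ A, A = 1 + Z * Sw p N := ⟨_, rfl⟩
  obtain ⟨V, hVd⟩ : ∃ V, V = VV p N z w := ⟨_, rfl⟩
  have hb : 2 * V * x < N + 2 * x * A := by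
    rw [← hx] at hvb
    rw [← hVd] at hVv
    rw [← hA] at hzS
    calc 2 * V * x ≤ 2 * v * x := by gcongr
      _ < N + 2 * x * (1 + z * Sw p N) := hvb
      _ ≤ N + 2 * x * A := by gcongr
  have hNx : N ≤ 2 * V * x := by
    have := hP.2.1
    rw [← hVd, ← hx] at this
    exact this
  have hbig : 2 * x ^ 2 * A < N := by
    rw [← hA] at h1
    calc 2 * x ^ 2 * A ≤ 2 * ((2 * p + 1) * Z) ^ 2 * A := by gcongr
      _ < N := h1
  have hxA : 2 * x * A < N := by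
    calc 2 * x * A = 2 * x ^ 1 * A := by ring
      _ ≤ 2 * x ^ 2 * A := by
        gcongr
        · omega
        · norm_num
      _ < N := hbig
  have hV2 : 2 * x * A < 2 * V := by
    have : x * (2 * x * A) < x * (2 * V) := by
      calc x * (2 * x * A) = 2 * x ^ 2 * A := by ring
        _ < N := hbig
        _ ≤ 2 * V * x := hNx
        _ = x * (2 * V) := by ring
    exact Nat.lt_of_mul_lt_mul_left this
  rw [← hx, ← hVd, ← hA]
  rw [← hVd] at hP hmin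
  refine ⟨hP, hmin, hb, hxM, hx1, ?_, ?_⟩
  · have e1 : 2 * V * x = 2 * V * w + 4 * (V * (p * z)) := by rw [hx]; ring
    have e2 : V * 1 ≤ V * (p * z) := Nat.mul_le_mul_left _ hpz
    omega
  · have e1 : 2 * V * x = 2 * (V * x) := by ring
    omega

/-- pairs with the same pivot have the same `w'` -/
theorem same {p N Z Y : ℕ} (hp : p.Prime) (hp2 : p ≠ 2) (hN : 0 < N) (hpN : ¬ p ∣ N)
    (h1 : 2 * ((2 * p + 1) * Z) ^ 2 * (1 + Z * Sw p N) < N) {z w z1 w1 : ℕ}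
    (hz : z ∈ TT p N Z Y) (hw : w ∈ WW p N Y z) (hz1 : z1 ∈ TT p N Z Y)
    (hw1 : w1 ∈ WW p N Y z1) (hv : VV p N z w = VV p N z1 w1) :
    ¬ w + 2 * p * z < w1 + 2 * p * z1 := by
  intro hlt
  obtain ⟨a1, -, a3, a4, a5, -, -⟩ := facts hp hp2 hN hpN h1 hz hw
  obtain ⟨b1, -, b3, b4, b5, -, -⟩ := facts hp hp2 hN hpN h1 hz1 hw1
  have a0 := a1.2.1
  rw [← hv] at b3
  obtain ⟨V, hV⟩ : ∃ V, V = VV p N z w := ⟨_, rfl⟩
  obtain ⟨x, hx⟩ : ∃ x, x = w + 2 * p * z := ⟨_, rfl⟩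
  obtain ⟨y, hy⟩ : ∃ y, y = w1 + 2 * p * z1 := ⟨_, rfl⟩
  obtain ⟨A, hA⟩ : ∃ A, A = 1 + Z * Sw p N := ⟨_, rfl⟩
  obtain ⟨M, hM⟩ : ∃ M, M = (2 * p + 1) * Z := ⟨_, rfl⟩
  rw [← hV, ← hy, ← hA] at b3
  rw [← hV, ← hx] at a0
  rw [← hx, ← hM] at a4
  rw [← hy, ← hM] at b4
  rw [← hx, ← hy] at hlt
  rw [← hM, ← hA] at h1
  have c1 : V < y * A := by
    have : 2 * V * (x + 1) ≤ 2 * V * y := Nat.mul_le_mul_left _ hlt
    have e : 2 * V * (x + 1) = 2 * V * x + 2 * V := by ring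
    have e2 : 2 * y * A = 2 * (y * A) := by ring
    omega
  have hx0 : 0 < x := by rw [hx]; omega
  have c2 : N < N := by
    calc N ≤ 2 * V * x := a0
      _ = V * (2 * x) := by ring
      _ < y * A * (2 * x) := Nat.mul_lt_mul_of_pos_right c1 (by omega)
      _ = 2 * (x * y) * A := by ring
      _ ≤ 2 * (M * M) * A := by gcongr
      _ = 2 * M ^ 2 * A := by ring
      _ < N := h1
  exact lt_irrefl _ c2

/-- the prime `z` divides `2 v w' - N` -/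
theorem dvd_n {p N z w v : ℕ} (h : Piv p N z w v) : z ∣ 2 * v * (w + 2 * p * z) - N := by
  have h1 : (z : ℤ) ∣ ((2 * v * (w + 2 * p * z) - N : ℕ) : ℤ) := by
    rw [Nat.cast_sub h.2.1]
    have h2 := h.2.2.1
    obtain ⟨c, hc⟩ := h2
    refine ⟨c + 4 * v * p, ?_⟩
    push_cast
    linear_combination hc
  exact_mod_cast h1

theorem fiber {p N Z Y : ℕ} (hp : p.Prime) (hp2 : p ≠ 2) (hN : 0 < N) (hpN : ¬ p ∣ N)
    (h1 : 2 * ((2 * p + 1) * Z) ^ 2 * (1 + Z * Sw p N) < N)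
    (h2 : 2 * ((2 * p + 1) * Z) * (1 + Z * Sw p N) < Y ^ 3) {z w z1 w1 z2 w2 : ℕ}
    (hz : z ∈ TT p N Z Y) (hw : w ∈ WW p N Y z) (hz1 : z1 ∈ TT p N Z Y)
    (hw1 : w1 ∈ WW p N Y z1) (hz2 : z2 ∈ TT p N Z Y)
    (hw2 : w2 ∈ WW p N Y z2) (hv1 : VV p N z w = VV p N z1 w1) (hv2 : VV p N z w = VV p N z2 w2)
    (n1 : ¬ (z = z1 ∧ w = w1)) (n2 : ¬ (z = z2 ∧ w = w2)) (n3 : ¬ (z1 = z2 ∧ w1 = w2)) :
    False := by
  have e1 : w + 2 * p * z = w1 + 2 * p * z1 := le_antisymm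
    (not_lt.1 (same hp hp2 hN hpN h1 hz1 hw1 hz hw hv1.symm))
    (not_lt.1 (same hp hp2 hN hpN h1 hz hw hz1 hw1 hv1))
  have e2 : w + 2 * p * z = w2 + 2 * p * z2 := le_antisymm
    (not_lt.1 (same hp hp2 hN hpN h1 hz2 hw2 hz hw hv2.symm))
    (not_lt.1 (same hp hp2 hN hpN h1 hz hw hz2 hw2 hv2))
  have m1 : z ≠ z1 := by
    rintro rfl
    exact n1 ⟨rfl, by omega⟩
  have m2 : z ≠ z2 := by
    rintro rfl
    exact n2 ⟨rfl, by omega⟩
  have m3 : z1 ≠ z2 := by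
    rintro rfl
    exact n3 ⟨rfl, by omega⟩
  obtain ⟨a1, -, a3, a4, a5, -, -⟩ := facts hp hp2 hN hpN h1 hz hw
  obtain ⟨b1, -⟩ := facts hp hp2 hN hpN h1 hz1 hw1
  obtain ⟨c1, -⟩ := facts hp hp2 hN hpN h1 hz2 hw2
  have d0 := dvd_n a1
  have d1 := dvd_n b1
  have d2 := dvd_n c1
  rw [← hv1, ← e1] at d1
  rw [← hv2, ← e2] at d2
  have a0 := a1.2.1
  have hcop : (w + 2 * p * z).Coprime N := by
    simp only [WW, Finset.mem_filter, Finset.mem_range] at hw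
    exact hw.2.2.2.2
  simp only [TT, Finset.mem_filter, Finset.mem_range] at hz hz1 hz2
  obtain ⟨n, hn⟩ : ∃ n, n = 2 * VV p N z w * (w + 2 * p * z) - N := ⟨_, rfl⟩
  rw [← hn] at d0 d1 d2
  have hn0 : n ≠ 0 := by
    intro h0
    have h3 : N = 2 * VV p N z w * (w + 2 * p * z) := by omega
    have h4 : (w + 2 * p * z) ∣ N := by
      rw [h3]
      exact Dvd.intro_left _ rfl
    have h5 := Nat.Coprime.eq_one_of_dvd hcop h4
    omega
  have hc01 : z.Coprime z1 := (Nat.coprime_primes hz.2.2.1 hz1.2.2.1).2 m1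
  have hc02 : z.Coprime z2 := (Nat.coprime_primes hz.2.2.1 hz2.2.2.1).2 m2
  have hc12 : z1.Coprime z2 := (Nat.coprime_primes hz1.2.2.1 hz2.2.2.1).2 m3
  have hdvd : z * z1 * z2 ∣ n :=
    Nat.Coprime.mul_dvd_of_dvd_of_dvd (Nat.Coprime.mul_left hc02 hc12)
      (Nat.Coprime.mul_dvd_of_dvd_of_dvd hc01 d0 d1) d2
  have hle := Nat.le_of_dvd (Nat.pos_of_ne_zero hn0) hdvd
  have hY3 : Y ^ 3 ≤ z * z1 * z2 := by
    calc Y ^ 3 = Y * Y * Y := by ring
      _ ≤ z * z1 * z2 := by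
        have := hz.2.1
        have := hz1.2.1
        have := hz2.2.1
        gcongr
  have hfin : 2 * (w + 2 * p * z) * (1 + Z * Sw p N) ≤
      2 * ((2 * p + 1) * Z) * (1 + Z * Sw p N) := by
    gcongr
  omega

end Pairs

theorem pivots {p N Z Y U : ℕ} (hp : p.Prime) (hp2 : p ≠ 2) (hN : 0 < N) (hpN : ¬ p ∣ N)
    (h1 : 2 * ((2 * p + 1) * Z) ^ 2 * (1 + Z * Sw p N) < N)
    (h2 : 2 * ((2 * p + 1) * Z) * (1 + Z * Sw p N) < Y ^ 3)
    (h3 : primorial (4 * kk p N) * (U + 1) ≤ Y) :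
    ∃ (P : Finset ℕ) (z w : ℕ → ℕ),
      (Nat.primeCounting Z - Y - kk p N - 1) * (U - 4 * kk p N) ≤ 4 * P.card ∧
      ∀ v ∈ P, (z v).Prime ∧ z v ≠ 2 ∧ ¬ z v ∣ N ∧ z v ≠ p ∧ 0 < w v ∧ ¬ p ∣ w v ∧
        (w v).Coprime N ∧ (w v + 2 * p * z v).Coprime N ∧ Piv p N (z v) (w v) v ∧
        2 * v * w v < N ∧ v * (w v + 2 * p * z v) < N ∧
        ∀ u, u < v → ¬ Piv p N (z v) (w v) u := by
  classical
  let S : Finset (Σ _ : ℕ, ℕ) := (Pairs.TT p N Z Y).sigma fun z => Pairs.WW p N Y z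
  let f : (Σ _ : ℕ, ℕ) → ℕ := fun a => Pairs.VV p N a.1 a.2
  have hS : ∀ a : (Σ _ : ℕ, ℕ), a ∈ S ↔ a.1 ∈ Pairs.TT p N Z Y ∧ a.2 ∈ Pairs.WW p N Y a.1 := by
    intro a
    exact Finset.mem_sigma
  have hfib : ∀ v ∈ S.image f, (S.filter fun a => f a = v).card ≤ 2 := by
    intro v _
    by_contra hcon
    obtain ⟨a, ha, b, hb, c, hc, hab, hac, hbc⟩ := Finset.two_lt_card.1 (not_le.1 hcon)
    rw [Finset.mem_filter, hS] at ha hb hc
    obtain ⟨z, w⟩ := a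
    obtain ⟨z1, w1⟩ := b
    obtain ⟨z2, w2⟩ := c
    refine Pairs.fiber hp hp2 hN hpN h1 h2 ha.1.1 ha.1.2 hb.1.1 hb.1.2 hc.1.1 hc.1.2
      (ha.2.trans hb.2.symm) (ha.2.trans hc.2.symm) ?_ ?_ ?_
    · rintro ⟨e1, e2⟩
      dsimp only at e1 e2
      subst e1
      subst e2
      exact hab rfl
    · rintro ⟨e1, e2⟩
      dsimp only at e1 e2
      subst e1
      subst e2
      exact hac rfl
    · rintro ⟨e1, e2⟩
      dsimp only at e1 e2
      subst e1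
      subst e2
      exact hbc rfl
  have hcard : S.card ≤ 2 * (S.image f).card := Finset.card_le_mul_card_image _ _ hfib
  have hex : ∀ v, ∃ a : (Σ _ : ℕ, ℕ), v ∈ S.image f → a ∈ S ∧ f a = v := by
    intro v
    by_cases hv : v ∈ S.image f
    · obtain ⟨a, ha, hfa⟩ := Finset.mem_image.1 hv
      exact ⟨a, fun _ => ⟨ha, hfa⟩⟩
    · exact ⟨⟨0, 0⟩, fun h => absurd h hv⟩
  choose g hg using hex
  refine ⟨S.image f, fun v => (g v).1, fun v => (g v).2, ?_, ?_⟩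
  · have hT := Pairs.card_TT (p := p) (N := N) (Z := Z) (Y := Y) hp hN
    have hsum : S.card = ∑ z ∈ Pairs.TT p N Z Y, (Pairs.WW p N Y z).card := Finset.card_sigma _ _
    have hW : ∀ z ∈ Pairs.TT p N Z Y, U - 4 * kk p N ≤ 2 * (Pairs.WW p N Y z).card := by
      intro z _
      have := card_w (z := z) hp hN hpN h3
      unfold Pairs.WW
      omega
    calc (Nat.primeCounting Z - Y - kk p N - 1) * (U - 4 * kk p N)
        ≤ (Pairs.TT p N Z Y).card * (U - 4 * kk p N) := Nat.mul_le_mul_right _ hT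
      _ = ∑ z ∈ Pairs.TT p N Z Y, (U - 4 * kk p N) := by rw [Finset.sum_const, smul_eq_mul]
      _ ≤ ∑ z ∈ Pairs.TT p N Z Y, 2 * (Pairs.WW p N Y z).card := Finset.sum_le_sum hW
      _ = 2 * S.card := by rw [hsum, Finset.mul_sum]
      _ ≤ 4 * (S.image f).card := by omega
  · intro v hv
    obtain ⟨hgS, hgv⟩ := hg v hv
    rw [hS] at hgS
    obtain ⟨f1, f2, f3, f4, f5, f6, f7⟩ := Pairs.facts hp hp2 hN hpN h1 hgS.1 hgS.2
    have hgv' : Pairs.VV p N (g v).1 (g v).2 = v := hgv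
    rw [hgv'] at f1 f2 f3 f6 f7
    have t1 := hgS.1
    have t2 := hgS.2
    simp only [Pairs.TT, Finset.mem_filter, Finset.mem_range] at t1
    simp only [Pairs.WW, Finset.mem_filter, Finset.mem_range] at t2
    exact ⟨t1.2.2.1, t1.2.2.2.1, fun h => t1.2.2.2.2 (h.mul_right p),
      fun h => t1.2.2.2.2 (h ▸ Dvd.intro_left N rfl), t2.2.1, t2.2.2.1, t2.2.2.2.1, t2.2.2.2.2,
      f1, f6, f7, f2⟩

end Pool.Agent.TTh
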