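import Pool.Agent.TTh.RankP
import Pool.Agent.TTh.Diff
import Pool.Agent.TTh.Pairs

/-!
# TTh/Main: lower bound for the rank of the matrix `Fh (a b)`

PROOF.  `pivots` gives `P`, `z`, `w`.  Apply `rank_pivot` with `row v` = the unit `v` modulo `N`
(`ZMod.unitOfCoprime`, `1` if `v` is not prime to `N`), `d v = w / z`, `c v = w' / z` (units,
`w' = w + 2 p z`).  For `u ∈ P`, `u ≤ v`: the entries in row `u` are `Fh p N h b'`, `Fh p N h b` with
`b = val (u w / z)`, `b' = val (u w' / z)`, so `z b ≡ u w` modulo `N` and `z b' ≡ u w'`.  `u > 0`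
because `u` is prime to `N` and `N > 1` (`h1` gives `N > 2`).
If `u < v`: `Piv p N z w u` is false and `u` is prime to `N` (`u ∈ P`), so `2 u w' < N` or `z` does not
divide `2 u w - N` or `p ∣ 2 u w - N`: `Fh_eq` (`t = 2`; `u w' < N` since `u < v`).  If `u = v`: `Fh_ne`.
-/

namespace Pool.Agent.TTh

/-- the unit `v` modulo `N` (`1` if `v` is not prime to `N`) -/
private noncomputable def un (N v : ℕ) : (ZMod N)ˣ :=
  open Classical in if h : v.Coprime N then ZMod.unitOfCoprime v h else 1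

private theorem un_coe {N v : ℕ} (h : v.Coprime N) : ((un N v : (ZMod N)ˣ) : ZMod N) = v := by
  unfold un
  rw [dif_pos h]
  exact ZMod.coe_unitOfCoprime v h

private theorem un_mod {N z u w : ℕ} [NeZero N] (hz : z.Coprime N) (hu : u.Coprime N)
    (hw : w.Coprime N) :
    z * ((un N u * (un N w * (un N z)⁻¹) : (ZMod N)ˣ) : ZMod N).val ≡ u * w [MOD N] := by
  rw [← ZMod.natCast_eq_natCast_iff]
  push_cast
  rw [ZMod.natCast_zmod_val, un_coe hu, un_coe hw]
  have h1 : (z : ZMod N) * ((un N z)⁻¹ : (ZMod N)ˣ) = 1 := by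
    rw [← un_coe hz]
    exact Units.mul_inv _
  calc (z : ZMod N) * ((u : ZMod N) * ((w : ZMod N) * ((un N z)⁻¹ : (ZMod N)ˣ)))
      = (u : ZMod N) * w * ((z : ZMod N) * ((un N z)⁻¹ : (ZMod N)ˣ)) := by ring
    _ = (u : ZMod N) * w := by rw [h1, mul_one]

theorem rank_lower {p N Z Y U : ℕ} [NeZero N] (hp : p.Prime) (hp2 : p ≠ 2) (hpN : ¬ p ∣ N)
    {K : Type} [Field K] {h : ℕ → K} (hh : Wt p h)
    (h1 : 2 * ((2 * p + 1) * Z) ^ 2 * (1 + Z * Sw p N) < N) (hN : 2 < N)
    (h2 : 2 * ((2 * p + 1) * Z) * (1 + Z * Sw p N) < Y ^ 3)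
    (h3 : primorial (4 * kk p N) * (U + 1) ≤ Y) :
    (Nat.primeCounting Z - Y - kk p N - 1) * (U - 4 * kk p N) ≤
      4 * (Matrix.of fun a b : (ZMod N)ˣ => Fh p N h ((a * b : (ZMod N)ˣ) : ZMod N).val).rank := by
  have hN0 : 0 < N := by omega
  obtain ⟨P, z, w, hcard, hP⟩ := pivots hp hp2 hN0 hpN h1 h2 h3
  have hmain : P.card ≤
      (Matrix.of fun a b : (ZMod N)ˣ => Fh p N h ((a * b : (ZMod N)ˣ) : ZMod N).val).rank := by
    refine rank_pivot _ P (fun v => un N v)
      (fun v => un N (w v + 2 * p * z v) * (un N (z v))⁻¹)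
      (fun v => un N (w v) * (un N (z v))⁻¹) ?_ ?_
    · intro v hv u hu huv
      obtain ⟨hzp, hz2, hzN, hzne, hw0, hpw, hwN, hwN', hpiv, hlt1, hlt2, hmin⟩ := hP v hv
      have huN : u.Coprime N := (hP u hu).2.2.2.2.2.2.2.2.1.1
      have hu0 : 0 < u := by
        rcases Nat.eq_zero_or_pos u with h0 | h0
        · exfalso
          rw [h0, Nat.coprime_zero_left] at huN
          omega
        · exact h0
      have hzc : (z v).Coprime N := (Nat.Prime.coprime_iff_not_dvd hzp).2 hzN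
      have hpz : ¬ p ∣ z v := fun hd => hzne ((Nat.prime_dvd_prime_iff_eq hp hzp).1 hd).symm
      have hlt : u * (w v + 2 * p * z v) < N :=
        lt_of_le_of_lt (Nat.mul_le_mul_right _ huv.le) hlt2
      have hc : 2 * u * (w v + 2 * p * z v) < N ∨ ¬ ((z v : ℕ) : ℤ) ∣ 2 * u * (w v : ℕ) - N ∨
          (p : ℤ) ∣ 2 * u * (w v : ℕ) - N := by
        have hm := hmin u huv
        unfold Piv at hm
        by_contra hcon
        push Not at hcon
        exact hm ⟨huN, hcon.1, hcon.2.1, hcon.2.2⟩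
      simp only [Matrix.of_apply]
      exact Fh_eq hp hp2 hN0 hh (hzp.odd_of_ne_two hz2) hzc hpz hu0 hw0 (ZMod.val_lt _)
        (ZMod.val_lt _) (un_mod hzc huN hwN) (un_mod hzc huN hwN') hlt hc
    · intro v hv
      obtain ⟨hzp, hz2, hzN, hzne, hw0, hpw, hwN, hwN', hpiv, hlt1, hlt2, hmin⟩ := hP v hv
      have huN : v.Coprime N := hpiv.1
      have hu0 : 0 < v := by
        rcases Nat.eq_zero_or_pos v with h0 | h0
        · exfalso
          rw [h0, Nat.coprime_zero_left] at huN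
          omega
        · exact h0
      have hzc : (z v).Coprime N := (Nat.Prime.coprime_iff_not_dvd hzp).2 hzN
      have hpz : ¬ p ∣ z v := fun hd => hzne ((Nat.prime_dvd_prime_iff_eq hp hzp).1 hd).symm
      simp only [Matrix.of_apply]
      exact Fh_ne hp hp2 hN0 hh (hzp.odd_of_ne_two hz2) hzc hpz hu0 hw0 (ZMod.val_lt _)
        (ZMod.val_lt _) (un_mod hzc huN hwN) (un_mod hzc huN hwN') hlt2 hlt1 hpiv.2.1
        hpiv.2.2.1 hpiv.2.2.2
  omega

end Pool.Agent.TTh
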