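import Pool.Agent.GP.Half.Criterion
import Pool.Agent.GP.Half.RankFourier
import Pool.Agent.GP.Half.Assemble
import Pool.Agent.TTh.Main
import Pool.Agent.TTh.Asym

/-!
# TTh/FinalT: the theorem
-/

open Finset

namespace Pool.Agent.TTh

open Pool.Agent.GP

/-- the character `ω ^ i ψ` modulo `N p`, `ψ` a character modulo `N` -/
noncomputable def twist (p N i : ℕ) [Fact p.Prime] (ψ : (ZMod N)ˣ →* (Fpbar p)ˣ) :
    (ZMod (N * p))ˣ →* (Fpbar p)ˣ :=
  omega p N (Fpbar p) ^ i * ψ.comp (ZMod.unitsMap (Dvd.intro p rfl : N ∣ N * p))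

/-- the characters `ψ` modulo `N` for which `θ = ω ^ i ψ` is even and `X_θ = 0` -/
def evenZero (p N i : ℕ) [Fact p.Prime] : Set ((ZMod N)ˣ →* (Fpbar p)ˣ) :=
  {ψ | twist p N i ψ (-1) = 1 ∧ EigenZero p N (twist p N i ψ)}

/-- `m ^ (i - 1)` in characteristic `p` (zero if `p ∣ m`) -/
noncomputable def wt (p i : ℕ) [Fact p.Prime] (m : ℕ) : Fpbar p :=
  (m : Fpbar p) ^ i * (m : Fpbar p)⁻¹

theorem wt_wt (p i : ℕ) [Fact p.Prime] : Wt p (wt p i) := by
  constructor
  · intro m
    unfold wt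
    rw [Nat.cast_add, CharP.cast_eq_zero (Fpbar p) p, add_zero]
  · intro m
    unfold wt
    rw [Ne, mul_eq_zero, not_or, inv_eq_zero, ← CharP.cast_eq_zero_iff (Fpbar p) p m]
    constructor
    · rintro ⟨_, h⟩
      exact h
    · intro h
      exact ⟨pow_ne_zero _ h, h⟩

theorem wt_zero {p i m : ℕ} [Fact p.Prime] (h : p ∣ m) : wt p i m = 0 := by
  by_contra h1
  exact ((wt_wt p i).ne m).1 h1 h

section fib

variable {p N : ℕ} [hpF : Fact p.Prime] [NeZero N] [NeZero (N * p)]

theorem unitsMap_val (a : (ZMod (N * p))ˣ) :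
    ((ZMod.unitsMap (Dvd.intro p rfl : N ∣ N * p) a : (ZMod N)ˣ) : ZMod N).val =
      (a : ZMod (N * p)).val % N := by
  rw [ZMod.unitsMap_val, ZMod.cast_eq_val, ZMod.val_natCast]

/-- the fibre of the half set over `x` -/
theorem fibre_sum (hpN : ¬ p ∣ N) (i : ℕ) (x : (ZMod N)ˣ) :
    ∑ a ∈ (halfSet (N * p)).filter
      (fun a => ZMod.unitsMap (Dvd.intro p rfl : N ∣ N * p) a = x),
      wt p i (a : ZMod (N * p)).val = Fh p N (wt p i) (x : ZMod N).val := by
  classical
  have hN : 0 < N := Nat.pos_of_ne_zero (NeZero.ne N)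
  have hp := hpF.out
  unfold Fh
  rw [← Finset.sum_filter]
  symm
  rw [← Finset.sum_filter_add_sum_filter_not _ (fun j => ¬ p ∣ (x : ZMod N).val + N * j)]
  have hz : ∑ j ∈ ((range p).filter fun j => 2 * ((x : ZMod N).val + N * j) < N * p).filter
      (fun j => ¬ ¬ p ∣ (x : ZMod N).val + N * j), wt p i ((x : ZMod N).val + N * j) = 0 := by
    apply Finset.sum_eq_zero
    intro j hj
    rw [mem_filter, not_not] at hj
    exact wt_zero hj.2
  rw [hz, add_zero]
  have hxN : (x : ZMod N).val.Coprime N := ZMod.val_coe_unit_coprime x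
  have hcop : ∀ j, ¬ p ∣ (x : ZMod N).val + N * j → ((x : ZMod N).val + N * j).Coprime (N * p) := by
    intro j hj
    refine Nat.Coprime.mul_right ?_ ?_
    · rw [Nat.coprime_add_mul_left_left]
      exact hxN
    · exact ((Nat.Prime.coprime_iff_not_dvd hp).2 hj).symm
  have hlt : ∀ j < p, (x : ZMod N).val + N * j < N * p := by
    intro j hj
    have h1 := ZMod.val_lt (x : ZMod N)
    have h2 : N * (j + 1) ≤ N * p := Nat.mul_le_mul_left N hj
    linarith [Nat.mul_succ N j]
  refine Finset.sum_bij' (fun j hj => ZMod.unitOfCoprime ((x : ZMod N).val + N * j)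
      (hcop j (mem_filter.1 hj).2)) (fun a _ => (a : ZMod (N * p)).val / N) ?_ ?_ ?_ ?_ ?_
  · intro j hj
    rw [mem_filter, mem_filter, mem_range] at hj
    have hv : ((ZMod.unitOfCoprime ((x : ZMod N).val + N * j) (hcop j hj.2) :
        (ZMod (N * p))ˣ) : ZMod (N * p)).val = (x : ZMod N).val + N * j := by
      rw [ZMod.coe_unitOfCoprime, ZMod.val_natCast, Nat.mod_eq_of_lt (hlt j hj.1.1)]
    rw [mem_filter]
    constructor
    · rw [halfSet, mem_filter]
      refine ⟨mem_univ _, ?_⟩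
      rw [hv]
      exact hj.1.2
    · apply Units.ext
      apply ZMod.val_injective
      rw [unitsMap_val, hv, Nat.add_mul_mod_self_left, Nat.mod_eq_of_lt (ZMod.val_lt _)]
  · intro a ha
    rw [mem_filter, halfSet, mem_filter] at ha
    obtain ⟨⟨_, h2⟩, h3⟩ := ha
    have h4 := unitsMap_val (p := p) (N := N) a
    rw [h3] at h4
    have h5 : (x : ZMod N).val + N * ((a : ZMod (N * p)).val / N) = (a : ZMod (N * p)).val := by
      rw [h4]
      exact Nat.mod_add_div _ _
    rw [mem_filter, mem_filter, mem_range, h5]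
    refine ⟨⟨?_, h2⟩, ?_⟩
    · exact Nat.div_lt_of_lt_mul (ZMod.val_lt _)
    · intro h6
      have h7 := ZMod.val_coe_unit_coprime a
      have h8 := Nat.Coprime.coprime_mul_left_right h7
      exact (Nat.Prime.coprime_iff_not_dvd hp).1 h8.symm h6
  · intro j hj
    rw [mem_filter, mem_filter, mem_range] at hj
    have hv : ((ZMod.unitOfCoprime ((x : ZMod N).val + N * j) (hcop j hj.2) :
        (ZMod (N * p))ˣ) : ZMod (N * p)).val = (x : ZMod N).val + N * j := by
      rw [ZMod.coe_unitOfCoprime, ZMod.val_natCast, Nat.mod_eq_of_lt (hlt j hj.1.1)]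
    change ((ZMod.unitOfCoprime ((x : ZMod N).val + N * j) (hcop j hj.2) :
        (ZMod (N * p))ˣ) : ZMod (N * p)).val / N = j
    rw [hv, Nat.add_mul_div_left _ _ hN, Nat.div_eq_of_lt (ZMod.val_lt _), zero_add]
  · intro a ha
    rw [mem_filter, halfSet, mem_filter] at ha
    obtain ⟨⟨_, h2⟩, h3⟩ := ha
    have h4 := unitsMap_val (p := p) (N := N) a
    rw [h3] at h4
    apply Units.ext
    rw [ZMod.coe_unitOfCoprime, h4, Nat.mod_add_div, ZMod.natCast_val, ZMod.cast_id]
  · intro j hj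
    rw [mem_filter, mem_filter, mem_range] at hj
    rw [ZMod.coe_unitOfCoprime, ZMod.val_natCast, Nat.mod_eq_of_lt (hlt j hj.1.1)]

/-- the sum of the criterion -/
theorem half_sum (hpN : ¬ p ∣ N) (i : ℕ) (ψ : (ZMod N)ˣ →* (Fpbar p)ˣ) :
    ∑ a ∈ halfSet (N * p), (((omega p N (Fpbar p) a)⁻¹ * twist p N i ψ a : (Fpbar p)ˣ) : Fpbar p) =
      ∑ x : (ZMod N)ˣ, Fh p N (wt p i) (x : ZMod N).val * (ψ x : Fpbar p) := by
  classical
  rw [← Finset.sum_fiberwise (halfSet (N * p))
    (fun a => ZMod.unitsMap (Dvd.intro p rfl : N ∣ N * p) a)]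
  refine Finset.sum_congr rfl fun x _ => ?_
  rw [← fibre_sum hpN i x, Finset.sum_mul]
  refine Finset.sum_congr rfl fun a ha => ?_
  rw [mem_filter] at ha
  have h1 : (omega p N (Fpbar p) a : Fpbar p) = ((a : ZMod (N * p)).val : Fpbar p) :=
    Half.omega_val a
  unfold twist wt
  rw [MonoidHom.mul_apply, MonoidHom.pow_apply, MonoidHom.comp_apply, ha.2, Units.val_mul,
    Units.val_inv_eq_inv_val, Units.val_mul, Units.val_pow_eq_pow_val, h1]
  ring

end fib

section count

variable {G K : Type} [CommGroup G] [Fintype G] [Field K] [IsAlgClosed K]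

theorem rank_le_card (hG : (Fintype.card G : K) ≠ 0) (f : G → K) :
    (Matrix.of fun a b : G => f (a * b)).rank ≤
      {ψ : G →* Kˣ | ∑ x, f x * (ψ x : K) ≠ 0}.ncard := by
  classical
  have hfin : Finite (G →* Kˣ) := Half.RankFourierAux.finite_chars hG
  let e : G ≃* (⊤ : Subgroup G) := Subgroup.topEquiv.symm
  have hcard : (Fintype.card (⊤ : Subgroup G) : K) ≠ 0 := by
    rw [← Fintype.card_congr e.toEquiv]
    exact hG
  have h1 := Half.rank_eq_card (⊤ : Subgroup G) K hcard f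
  have h2 : (Matrix.of fun a b : G => f (a * b)) =
      (Matrix.of fun (b : G) (c : (⊤ : Subgroup G)) => f (b * c)) *
        (Matrix.of fun (c : (⊤ : Subgroup G)) (b : G) => if (c : G) = b then (1 : K) else 0) := by
    ext a b
    rw [Matrix.mul_apply]
    simp only [Matrix.of_apply]
    rw [Finset.sum_eq_single (e b)]
    · have : ((e b : (⊤ : Subgroup G)) : G) = b := rfl
      rw [this, if_pos rfl, mul_one]
    · intro c _ hc
      rw [if_neg, mul_zero]
      intro h
      exact hc (Subtype.ext h)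
    · intro h
      exact absurd (mem_univ _) h
  rw [h2]
  refine (Matrix.rank_mul_le_left _ _).trans ?_
  rw [h1, ← Nat.card_coe_set_eq]
  have key : ∀ μ : (⊤ : Subgroup G) →* Kˣ,
      (∃ b : G, ∑ c : (⊤ : Subgroup G), f (b * c) * (μ c : K) ≠ 0) →
      ∑ x, f x * ((μ.comp e.toMonoidHom) x : K) ≠ 0 := by
    rintro μ ⟨b, hb⟩ h0
    apply hb
    have h3 : ∑ c : (⊤ : Subgroup G), f (b * c) * (μ c : K) =
        ∑ x : G, f (b * x) * ((μ.comp e.toMonoidHom) x : K) :=
      (Fintype.sum_equiv e.toEquiv _ _ fun x => rfl).symm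
    rw [h3]
    have hu : ((μ.comp e.toMonoidHom) b : K) ≠ 0 := Units.ne_zero _
    apply mul_left_cancel₀ hu
    rw [mul_zero, Finset.mul_sum, ← h0]
    refine Fintype.sum_equiv (Equiv.mulLeft b) _ _ fun x => ?_
    rw [Equiv.coe_mulLeft, map_mul, Units.val_mul]
    ring
  refine Nat.card_le_card_of_injective
    (fun μ : {μ : (⊤ : Subgroup G) →* Kˣ // ∃ b : G, ∑ c : (⊤ : Subgroup G),
      f (b * c) * (μ c : K) ≠ 0} =>
      (⟨μ.1.comp e.toMonoidHom, key μ.1 μ.2⟩ : {ψ : G →* Kˣ | ∑ x, f x * (ψ x : K) ≠ 0})) ?_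
  intro μ ν h
  apply Subtype.ext
  have h4 := congrArg Subtype.val h
  simp only at h4
  apply MonoidHom.ext
  intro c
  have h5 := DFunLike.congr_fun h4 (c : G)
  exact h5

end count

section parity

variable {p N : ℕ} [hpF : Fact p.Prime] [NeZero (N * p)]

/-- the half sum of an even nontrivial character is zero -/
theorem half_even_zero (hp2 : p ≠ 2) (hN : 0 < N) (χ : (ZMod (N * p))ˣ →* (Fpbar p)ˣ)
    (heven : χ (-1) = 1) (hne : χ ≠ 1) :
    ∑ a ∈ halfSet (N * p), (χ a : Fpbar p) = 0 := by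
  classical
  have hp := hpF.out
  have h3 : 3 ≤ p := by
    have := hp.two_le
    omega
  have hM : 2 < N * p := by nlinarith
  have htot := Half.RankFourierAux.orth χ hne
  have h2 : (2 : Fpbar p) ≠ 0 := by
    intro h
    have h4 : ((2 : ℕ) : Fpbar p) = 0 := by exact_mod_cast h
    rw [CharP.cast_eq_zero_iff (Fpbar p) p] at h4
    have := Nat.le_of_dvd (by norm_num) h4
    omega
  have hsplit : ∑ a : (ZMod (N * p))ˣ, (χ a : Fpbar p) =
      ∑ a ∈ halfSet (N * p), (χ a : Fpbar p) + ∑ a ∈ halfSet (N * p), (χ a : Fpbar p) := by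
    rw [← Finset.sum_filter_add_sum_filter_not (univ : Finset (ZMod (N * p))ˣ)
      (fun a : (ZMod (N * p))ˣ => 2 * (a : ZMod (N * p)).val < N * p)]
    congr 1
    refine Finset.sum_nbij' (fun a => -a) (fun a => -a) ?_ ?_ ?_ ?_ ?_
    · intro a ha
      rw [mem_filter] at ha
      rw [halfSet, mem_filter]
      refine ⟨mem_univ _, ?_⟩
      have h5 := Half.two_val_ne hM a
      have h6 := ZMod.val_lt (a : ZMod (N * p))
      have h7 : (a : ZMod (N * p)) ≠ 0 := by
        intro h
        have hcop := ZMod.val_coe_unit_coprime a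
        rw [h, ZMod.val_zero, Nat.coprime_zero_left] at hcop
        omega
      rw [Units.val_neg, ZMod.neg_val, if_neg h7]
      omega
    · intro a ha
      rw [halfSet, mem_filter] at ha
      rw [mem_filter]
      refine ⟨mem_univ _, ?_⟩
      have h6 := ZMod.val_lt (a : ZMod (N * p))
      have h7 : (a : ZMod (N * p)) ≠ 0 := by
        intro h
        have hcop := ZMod.val_coe_unit_coprime a
        rw [h, ZMod.val_zero, Nat.coprime_zero_left] at hcop
        omega
      rw [Units.val_neg, ZMod.neg_val, if_neg h7]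
      omega
    · intro a _
      exact neg_neg a
    · intro a _
      exact neg_neg a
    · intro a _
      rw [← neg_one_mul, map_mul, heven, one_mul]
  rw [hsplit, ← two_mul] at htot
  exact (mul_eq_zero.1 htot).resolve_left h2

end parity

/-- the count -/
theorem rank_le_evenZero {p N : ℕ} [hpF : Fact p.Prime] (hp2 : p ≠ 2) (hN : 0 < N)
    [NeZero N] (hpN : ¬ p ∣ N) (hphi : ¬ p ∣ N.totient) (i : ℕ) :
    (Matrix.of fun a b : (ZMod N)ˣ =>
      Fh p N (wt p i) ((a * b : (ZMod N)ˣ) : ZMod N).val).rank ≤ (evenZero p N i).ncard + 1 := by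
  classical
  have hp := hpF.out
  have hne : NeZero (N * p) := ⟨Nat.mul_ne_zero (NeZero.ne N) hp.ne_zero⟩
  have hG : (Fintype.card (ZMod N)ˣ : Fpbar p) ≠ 0 := by
    rw [ZMod.card_units_eq_totient]
    intro h
    exact hphi ((CharP.cast_eq_zero_iff (Fpbar p) p _).1 h)
  have hfin : Finite ((ZMod N)ˣ →* (Fpbar p)ˣ) := Half.RankFourierAux.finite_chars hG
  refine (rank_le_card hG (fun x : (ZMod N)ˣ => Fh p N (wt p i) (x : ZMod N).val)).trans ?_
  set S : Set ((ZMod N)ˣ →* (Fpbar p)ˣ) :=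
    {ψ | ∑ x : (ZMod N)ˣ, Fh p N (wt p i) (x : ZMod N).val * (ψ x : Fpbar p) ≠ 0} with hS
  set E : Set ((ZMod N)ˣ →* (Fpbar p)ˣ) :=
    {ψ | (omega p N (Fpbar p))⁻¹ * twist p N i ψ = 1} with hE
  have hEsub : E.Subsingleton := by
    intro ψ hψ φ hφ
    have h1 : twist p N i ψ = twist p N i φ := by
      have h2 : (omega p N (Fpbar p))⁻¹ * twist p N i ψ =
        (omega p N (Fpbar p))⁻¹ * twist p N i φ := by
        rw [hψ, hφ]
      exact mul_left_cancel h2
    unfold twist at h1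
    have h3 := mul_left_cancel h1
    apply MonoidHom.ext
    intro x
    obtain ⟨a, rfl⟩ := ZMod.unitsMap_surjective (Dvd.intro p rfl : N ∣ N * p) x
    exact DFunLike.congr_fun h3 a
  have hsub : S ⊆ evenZero p N i ∪ E := by
    intro ψ hψ
    by_cases hψE : ψ ∈ E
    · exact Or.inr hψE
    left
    have hsum := half_sum (p := p) (N := N) hpN i ψ
    have hs0 : ∑ a ∈ halfSet (N * p),
        (((omega p N (Fpbar p) a)⁻¹ * twist p N i ψ a : (Fpbar p)ˣ) : Fpbar p) ≠ 0 := by
      rw [hsum]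
      exact hψ
    have hom1 : omega p N (Fpbar p) (-1) = -1 := by
      apply Units.ext
      unfold omega
      rw [Units.coe_map, Units.val_neg, Units.val_neg, Units.val_one, Units.val_one]
      simp
    have heven : twist p N i ψ (-1) = 1 := by
      by_contra hodd
      have hsq : (twist p N i ψ (-1)) * (twist p N i ψ (-1)) = 1 := by
        rw [← map_mul, neg_mul_neg, one_mul, map_one]
      have hm1 : twist p N i ψ (-1) = -1 := by
        have h4 : ((twist p N i ψ (-1) : (Fpbar p)ˣ) : Fpbar p) *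
            ((twist p N i ψ (-1) : (Fpbar p)ˣ) : Fpbar p) = 1 := by
          rw [← Units.val_mul, hsq, Units.val_one]
        rcases mul_self_eq_one_iff.1 h4 with h5 | h5
        · exact absurd (Units.ext (by rw [h5, Units.val_one])) hodd
        · apply Units.ext
          rw [h5, Units.val_neg, Units.val_one]
      apply hs0
      have h6 := half_even_zero (p := p) (N := N) hp2 hN ((omega p N (Fpbar p))⁻¹ * twist p N i ψ)
        (by
          rw [MonoidHom.mul_apply, MonoidHom.inv_apply, hom1, hm1]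
          simp) hψE
      rw [← h6]
      rfl
    refine ⟨heven, ?_⟩
    intro φ hφ x
    by_contra hx
    exact hs0 (Half.criterion hp hp2 hN hpN hphi (twist p N i ψ) heven φ hφ x hx)
  calc S.ncard ≤ (evenZero p N i ∪ E).ncard := Set.ncard_le_ncard hsub (Set.toFinite _)
    _ ≤ (evenZero p N i).ncard + E.ncard := Set.ncard_union_le _ _
    _ ≤ (evenZero p N i).ncard + 1 := by
        have := Set.ncard_le_one_iff_subsingleton.2 hEsub
        omega

/-- the final theorem -/
theorem two_thirds : ∀ (p : ℕ) [Fact p.Prime], p ≠ 2 → ∀ ε : ℝ, 0 < ε →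
    ∃ N₀ : ℕ, ∀ N : ℕ, N₀ ≤ N → ¬ p ∣ N → ¬ p ∣ N.totient → ∀ i : ℕ,
      (N : ℝ) ^ (2 / 3 - ε) ≤ (evenZero p N i).ncard := by
  intro p hpF hp2 ε hε
  obtain ⟨N₀, hN₀⟩ := asym p hpF.out ε hε
  refine ⟨N₀, fun N hN hpN hphi i => ?_⟩
  obtain ⟨h2N, Z, Y, U, h1, h2, h3, h4⟩ := hN₀ N hN
  have hne : NeZero N := ⟨by omega⟩
  have h5 := rank_lower (p := p) (N := N) hpF.out hp2 hpN (wt_wt p i) h1 h2N h2 h3
  have h6 := rank_le_evenZero (p := p) (N := N) hp2 (by omega) hpN hphi i
  have h7 : (Nat.primeCounting Z - Y - kk p N - 1) * (U - 4 * kk p N) ≤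
      4 * ((evenZero p N i).ncard + 1) := by omega
  have h8 : (((Nat.primeCounting Z - Y - kk p N - 1) * (U - 4 * kk p N) : ℕ) : ℝ) ≤
      ((4 * ((evenZero p N i).ncard + 1) : ℕ) : ℝ) := Nat.cast_le.2 h7
  have h9 := h4.trans h8
  push_cast at h9
  linarith

end Pool.Agent.TTh
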