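import Mathlib

/-!
# TTh/RankP: pivots

If for every `v ∈ P` the difference of the columns `c v` and `d v` of `A` is zero in the rows
`row u`, `u ∈ P`, `u < v`, and nonzero in the row `row v`, then `rank A ≥ |P|`.

PROOF.  The rows `A (row v)`, `v ∈ P`, are linearly independent: in a relation
`∑ l_u A (row u) = 0` let `v` be the largest index with `l_v ≠ 0` and apply the functional
`x ↦ x (c v) - x (d v)`.  (`Matrix.rank_eq_finrank_span_row`, or `LinearIndependent.rank_matrix` for
the submatrix and `Matrix.rank_submatrix_le`.)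
-/

namespace Pool.Agent.TTh

theorem rank_pivot_indep {G K : Type} [Fintype G] [Field K] (A : Matrix G G K) (P : Finset ℕ)
    (row c d : ℕ → G)
    (h0 : ∀ v ∈ P, ∀ u ∈ P, u < v → A (row u) (c v) = A (row u) (d v))
    (h1 : ∀ v ∈ P, A (row v) (c v) ≠ A (row v) (d v)) :
    LinearIndependent K (fun v : P => A (row v)) := by
  classical
  rw [Fintype.linearIndependent_iff]
  intro l hl
  by_contra hne
  push Not at hne
  obtain ⟨i, hi⟩ := hne
  set S : Finset P := Finset.univ.filter (fun v => l v ≠ 0) with hS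
  have hSne : S.Nonempty := ⟨i, by simp [hS, hi]⟩
  obtain ⟨v, hvS, hvmax⟩ := S.exists_max_image (fun v => (v : ℕ)) hSne
  have hv : l v ≠ 0 := by
    rw [hS, Finset.mem_filter] at hvS
    exact hvS.2
  have hc := congrFun hl (c v)
  have hd := congrFun hl (d v)
  rw [Finset.sum_apply] at hc hd
  have h2 : ∑ u : P, l u * (A (row u) (c v) - A (row u) (d v)) = 0 := by
    simp only [mul_sub, Finset.sum_sub_distrib]
    have hc' : ∑ u : P, l u * A (row u) (c v) = 0 := by simpa using hc
    have hd' : ∑ u : P, l u * A (row u) (d v) = 0 := by simpa using hd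
    rw [hc', hd', sub_zero]
  rw [Finset.sum_eq_single v] at h2
  · rcases mul_eq_zero.1 h2 with h | h
    · exact hv h
    · exact h1 v v.2 (sub_eq_zero.1 h)
  · intro u _ huv
    rcases lt_or_ge (u : ℕ) (v : ℕ) with h | h
    · rw [h0 v v.2 u u.2 h, sub_self, mul_zero]
    · have h3 : l u = 0 := by
        by_contra h4
        have h5 : u ∈ S := by simp [hS, h4]
        have h6 := hvmax u h5
        exact huv (Subtype.ext (le_antisymm h6 h))
      rw [h3, zero_mul]
  · intro h
    exact absurd (Finset.mem_univ v) h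

theorem rank_pivot {G K : Type} [Fintype G] [Field K] (A : Matrix G G K) (P : Finset ℕ)
    (row c d : ℕ → G)
    (h0 : ∀ v ∈ P, ∀ u ∈ P, u < v → A (row u) (c v) = A (row u) (d v))
    (h1 : ∀ v ∈ P, A (row v) (c v) ≠ A (row v) (d v)) : P.card ≤ A.rank := by
  have h2 := rank_pivot_indep A P row c d h0 h1
  have h3 := finrank_span_eq_card h2
  rw [Fintype.card_coe] at h3
  rw [← h3, Matrix.rank_eq_finrank_span_row]
  apply Submodule.finrank_mono
  apply Submodule.span_mono
  rintro _ ⟨v, rfl⟩
  exact ⟨row v, rfl⟩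

end Pool.Agent.TTh
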