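import Pool.Agent.TTh.Avoid

/-!
# TTh/Win: a pivot in a short window, and many pairs

Notation: `Q` = the primes dividing `N p`, `k = |Q|`, `Sw p N = primorial (4 k) (4 k + 2)`.
`Piv p N z w v`: `v` is prime to `N`, `N ≤ 2 v w'` with `w' = w + 2 p z`, `z ∣ 2 v w - N` and `p`
does not divide `2 v w - N`.

(1) `exists_piv`.  PROOF: let `v₀ ≥ N / (2 w')` be the smallest integer with `N ≤ 2 v₀ w'` and
`z ∣ 2 v₀ w - N` (`2 w` is invertible modulo the odd prime `z`), so
`2 w' v₀ < N + 2 w' (1 + z)` (`v₀` is less than `⌈N / 2w'⌉ + z`).  Look at `v = v₀ + z s`.  For a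
prime `q ∣ N` (so `q ≠ z`) the `s` with `q ∣ v` form one class modulo `q`; the `s` with
`p ∣ 2 v w - N` form one class modulo `p` (`p` does not divide `2 z w`).  `avoid_count` with
`U = 4 k + 1` and one forbidden class for each `q ∈ Q` (the primes are `≥ 2`, so one class is not
everything) gives `s < Sw p N` which avoids all of them.  Then
`2 w' v ≤ 2 w' v₀ + 2 w' z (S - 1) < N + 2 w' (1 + z S)`.

(2) `card_w`.  PROOF: `avoid_count` with the forbidden classes `0` and `- 2 p z` modulo `q ∣ N`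
(for `q = 2` they coincide, for `q ≥ 3` two classes are not everything) and the class `0` modulo `p`.
All `s` found are `< primorial (4 k) (U + 1) ≤ Y`; `s ≠ 0` because `0` is forbidden modulo `p ∈ Q`.
`s + 2 p z` is prime to `N` since no prime `q ∣ N` divides it.
-/

namespace Pool.Agent.TTh

/-- the number of primes dividing `N p` -/
def kk (p N : ℕ) : ℕ := (N * p).primeFactors.card

/-- the length of the windows -/
def Sw (p N : ℕ) : ℕ := primorial (4 * kk p N) * (4 * kk p N + 2)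

/-- the conditions on a pivot `v` for the pair `(z, w)` -/
def Piv (p N z w v : ℕ) : Prop :=
  v.Coprime N ∧ N ≤ 2 * v * (w + 2 * p * z) ∧ (z : ℤ) ∣ 2 * v * w - N ∧ ¬ (p : ℤ) ∣ 2 * v * w - N

private theorem win_class {q : ℕ} (hq : q.Prime) {a b : ℤ} (ha : ¬ (q : ℤ) ∣ a) :
    ((Finset.range q).filter fun r : ℕ => (q : ℤ) ∣ b + a * r).card ≤ 1 := by
  rw [Finset.card_le_one]
  intro x hx y hy
  rw [Finset.mem_filter, Finset.mem_range] at hx hy
  have h1 : (q : ℤ) ∣ a * ((x : ℤ) - y) := by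
    have := dvd_sub hx.2 hy.2
    have e : b + a * (x : ℤ) - (b + a * y) = a * ((x : ℤ) - y) := by ring
    rwa [e] at this
  have h2 : (q : ℤ) ∣ (x : ℤ) - y := (Nat.prime_iff_prime_int.mp hq).dvd_or_dvd h1 |>.resolve_left ha
  have h3 : (x : ℤ) - y = 0 := by
    apply Int.eq_zero_of_abs_lt_dvd h2
    rw [abs_lt]
    have hx1 : (x : ℤ) < q := by exact_mod_cast hx.1
    have hy1 : (y : ℤ) < q := by exact_mod_cast hy.1
    constructor <;> omega
  omega

private theorem win_exists {q m : ℕ} {B : Finset ℕ} (hB : B.card ≤ m) (hm : m < q) :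
    ∃ r < q, r ∉ B := by
  by_contra hno
  push Not at hno
  have h1 : Finset.range q ⊆ B := fun r hr => hno r (Finset.mem_range.mp hr)
  have h2 := Finset.card_le_card h1
  rw [Finset.card_range] at h2
  omega

private theorem win_coprime {m N : ℕ} (h : ∀ q : ℕ, q.Prime → q ∣ N → ¬ q ∣ m) :
    m.Coprime N := by
  rw [Nat.coprime_iff_gcd_eq_one]
  by_contra hne
  obtain ⟨q, hq, hqd⟩ := Nat.exists_prime_and_dvd hne
  exact h q hq (hqd.trans (Nat.gcd_dvd_right _ _)) (hqd.trans (Nat.gcd_dvd_left _ _))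

private theorem win_mod (q s : ℕ) (a b : ℤ) :
    (q : ℤ) ∣ b + a * s ↔ (q : ℤ) ∣ b + a * ((s % q : ℕ) : ℤ) := by
  have e : b + a * (s : ℤ) = (b + a * ((s % q : ℕ) : ℤ)) + q * (a * ((s / q : ℕ) : ℤ)) := by
    have h := Nat.mod_add_div s q
    have h' : (s : ℤ) = ((s % q : ℕ) : ℤ) + q * ((s / q : ℕ) : ℤ) := by exact_mod_cast h.symm
    linear_combination a * h'
  rw [e]
  exact (Int.dvd_add_left ⟨_, rfl⟩)

theorem exists_piv {p N z w : ℕ} (hp : p.Prime) (hp2 : p ≠ 2) (hN : 0 < N) (hpN : ¬ p ∣ N)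
    (hz : z.Prime) (hz2 : z ≠ 2) (hzN : ¬ z ∣ N) (hzp : z ≠ p) (hw : 0 < w) (hwz : w < z)
    (hpw : ¬ p ∣ w) :
    ∃ v, Piv p N z w v ∧
      2 * v * (w + 2 * p * z) < N + 2 * (w + 2 * p * z) * (1 + z * Sw p N) := by
  obtain ⟨w', hw'⟩ : ∃ w', w' = w + 2 * p * z := ⟨_, rfl⟩
  rw [← hw']
  have hz0 : 0 < z := hz.pos
  have hw0 : 0 < w' := by omega
  -- the residue class modulo z
  have hzw : ¬ (z : ℤ) ∣ 2 * w := by
    intro hd
    have hd' : z ∣ 2 * w := by exact_mod_cast hd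
    rcases hz.dvd_mul.mp hd' with h | h
    · exact hz2 ((Nat.prime_dvd_prime_iff_eq hz Nat.prime_two).mp h)
    · exact absurd (Nat.le_of_dvd hw h) (by omega)
  have hcop : IsCoprime (2 * w : ℤ) (z : ℤ) := by
    refine (IsCoprime.symm ?_)
    exact (Nat.prime_iff_prime_int.mp hz).irreducible.coprime_iff_not_dvd.mpr hzw
  obtain ⟨u, t, hut⟩ := hcop
  -- the smallest admissible m0
  obtain ⟨m0, hm0⟩ : ∃ m0, m0 = (N + (2 * w' - 1)) / (2 * w') := ⟨_, rfl⟩
  have hm1 : N ≤ 2 * w' * m0 := by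
    have h := Nat.lt_mul_div_succ (N + (2 * w' - 1)) (show 0 < 2 * w' by omega)
    rw [← hm0, mul_add, mul_one] at h
    omega
  have hm2 : 2 * w' * m0 < N + 2 * w' := by
    have h := Nat.mul_div_le (N + (2 * w' - 1)) (2 * w')
    rw [← hm0] at h
    omega
  obtain ⟨j, hj⟩ : ∃ j : ℕ, j = ((N * u - m0 : ℤ) % z).toNat := ⟨_, rfl⟩
  have hzi : (z : ℤ) ≠ 0 := by exact_mod_cast hz0.ne'
  have hj1 : (j : ℤ) = (N * u - m0 : ℤ) % z := by
    rw [hj]
    exact Int.toNat_of_nonneg (Int.emod_nonneg _ hzi)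
  have hj2 : j < z := by
    have := Int.emod_lt_of_pos (N * u - m0 : ℤ) (by exact_mod_cast hz0 : (0 : ℤ) < z)
    rw [← hj1] at this
    exact_mod_cast this
  obtain ⟨v0, hv0⟩ : ∃ v0, v0 = m0 + j := ⟨_, rfl⟩
  have hv0z : (z : ℤ) ∣ 2 * v0 * w - N := by
    have h1 : (z : ℤ) ∣ (N * u - m0 : ℤ) - j := by
      rw [hj1]
      exact Int.dvd_self_sub_emod
    have e : (2 * v0 * w - N : ℤ) = -(2 * w) * ((N * u - m0 : ℤ) - j) - z * (t * N) := by
      rw [hv0]
      push_cast
      linear_combination (N : ℤ) * hut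
    rw [e]
    exact dvd_sub (Dvd.dvd.mul_left h1 _) ⟨_, rfl⟩
  obtain ⟨k, hk⟩ : ∃ k, k = (N * p).primeFactors.card := ⟨_, rfl⟩
  have hNp : N * p ≠ 0 := Nat.mul_ne_zero hN.ne' hp.ne_zero
  have hpz : ¬ (p : ℤ) ∣ 2 * z * w := by
    intro hd
    have hd' : p ∣ 2 * z * w := by exact_mod_cast hd
    rcases hp.dvd_mul.mp hd' with h | h
    · rcases hp.dvd_mul.mp h with h | h
      · exact hp2 ((Nat.prime_dvd_prime_iff_eq hp Nat.prime_two).mp h)
      · exact hzp ((Nat.prime_dvd_prime_iff_eq hp hz).mp h).symm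
    · exact hpw h
  obtain ⟨a, ha⟩ : ∃ a : ℕ → ℤ, a = fun q => if q = p then (2 * z * w : ℤ) else (z : ℤ) := ⟨_, rfl⟩
  obtain ⟨b, hb⟩ : ∃ b : ℕ → ℤ, b = fun q => if q = p then (2 * v0 * w - N : ℤ) else (v0 : ℤ) :=
    ⟨_, rfl⟩
  have hqa : ∀ q ∈ (N * p).primeFactors, ¬ (q : ℤ) ∣ a q := by
    intro q hq
    have hqp := Nat.prime_of_mem_primeFactors hq
    have hqd := Nat.dvd_of_mem_primeFactors hq
    rw [ha]
    by_cases hqe : q = p
    · simp only [hqe, if_true]
      exact hpz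
    · simp only [hqe, if_false]
      intro hd
      have hd' : q ∣ z := by exact_mod_cast hd
      have e := (Nat.prime_dvd_prime_iff_eq hqp hz).mp hd'
      rcases hqp.dvd_mul.mp hqd with h | h
      · exact hzN (e ▸ h)
      · exact hqe ((Nat.prime_dvd_prime_iff_eq hqp hp).mp h)
  have havoid := avoid_count (N * p).primeFactors
    (fun q hq => Nat.prime_of_mem_primeFactors hq)
    (fun q => (Finset.range q).filter fun r : ℕ => (q : ℤ) ∣ b q + a q * r)
    (fun q hq => (win_class (Nat.prime_of_mem_primeFactors hq) (hqa q hq)).trans (by norm_num))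
    (fun q hq => win_exists (win_class (Nat.prime_of_mem_primeFactors hq) (hqa q hq))
      (Nat.prime_of_mem_primeFactors hq).one_lt) (4 * k + 1)
  rw [← hk] at havoid
  have hcard : 0 < ((Finset.range (primorial (4 * k) * (4 * k + 1 + 1))).filter
      fun s => ∀ q ∈ (N * p).primeFactors, s % q ∉
        (Finset.range q).filter fun r : ℕ => (q : ℤ) ∣ b q + a q * r).card := by omega
  obtain ⟨s, hs⟩ := Finset.card_pos.mp hcard
  rw [Finset.mem_filter, Finset.mem_range] at hs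
  obtain ⟨hs1, hs2⟩ := hs
  have hs3 : ∀ q ∈ (N * p).primeFactors, ¬ (q : ℤ) ∣ b q + a q * s := by
    intro q hq hd
    refine hs2 q hq ?_
    rw [Finset.mem_filter, Finset.mem_range]
    exact ⟨Nat.mod_lt _ (Nat.prime_of_mem_primeFactors hq).pos, (win_mod q s _ _).mp hd⟩
  have hSw : Sw p N = primorial (4 * k) * (4 * k + 1 + 1) := by
    unfold Sw kk
    rw [← hk]
  refine ⟨v0 + z * s, ⟨?_, ?_, ?_, ?_⟩, ?_⟩
  · refine win_coprime fun q hq hqN hqv => ?_
    have hqm : q ∈ (N * p).primeFactors := by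
      rw [Nat.mem_primeFactors]
      exact ⟨hq, hqN.mul_right _, hNp⟩
    have hqe : q ≠ p := fun h => hpN (h ▸ hqN)
    refine hs3 q hqm ?_
    rw [ha, hb]
    simp only [hqe, if_false]
    exact_mod_cast hqv
  · have h1 : 2 * (v0 + z * s) * w' = 2 * w' * m0 + 2 * w' * (j + z * s) := by
      rw [hv0]
      ring
    rw [← hw', h1]
    exact hm1.trans (Nat.le_add_right _ _)
  · have e : ((2 : ℤ) * ((v0 + z * s : ℕ) : ℤ) * w - N) = (2 * v0 * w - N) + z * (2 * s * w) := by
      push_cast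
      ring
    rw [e]
    exact dvd_add hv0z ⟨_, rfl⟩
  · intro hd
    have hpm : p ∈ (N * p).primeFactors := by
      rw [Nat.mem_primeFactors]
      exact ⟨hp, Dvd.intro_left _ rfl, hNp⟩
    refine hs3 p hpm ?_
    rw [ha, hb]
    simp only [if_true]
    have e : ((2 : ℤ) * v0 * w - N) + 2 * z * w * s = 2 * ((v0 + z * s : ℕ) : ℤ) * w - N := by
      push_cast
      ring
    rw [e]
    exact hd
  · have hsS : s + 1 ≤ Sw p N := by
      rw [hSw]
      exact hs1
    have h1 : 2 * (v0 + z * s) * w' = 2 * w' * m0 + 2 * w' * (j + z * s) := by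
      rw [hv0]
      ring
    have h2 : j + z * s ≤ z * Sw p N := by
      calc j + z * s ≤ z + z * s := by omega
        _ = z * (s + 1) := by ring
        _ ≤ z * Sw p N := Nat.mul_le_mul_left _ hsS
    calc 2 * (v0 + z * s) * w' = 2 * w' * m0 + 2 * w' * (j + z * s) := h1
      _ < N + 2 * w' + 2 * w' * (j + z * s) := Nat.add_lt_add_right hm2 _
      _ ≤ N + 2 * w' + 2 * w' * (z * Sw p N) :=
        Nat.add_le_add_left (Nat.mul_le_mul_left _ h2) _
      _ = N + 2 * w' * (1 + z * Sw p N) := by ring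

theorem card_w {p N z Y U : ℕ} (hp : p.Prime) (hN : 0 < N) (hpN : ¬ p ∣ N)
    (hY : primorial (4 * kk p N) * (U + 1) ≤ Y) :
    U ≤ 2 * ((Finset.range Y).filter fun w => 0 < w ∧ ¬ p ∣ w ∧ w.Coprime N ∧
      (w + 2 * p * z).Coprime N).card + 4 * kk p N := by
  classical
  have hNp : N * p ≠ 0 := Nat.mul_ne_zero hN.ne' hp.ne_zero
  have hB2 : ∀ q ∈ (N * p).primeFactors, ((Finset.range q).filter fun r : ℕ =>
      (r = 0 ∨ (q ≠ p ∧ (q : ℤ) ∣ ((2 * p * z : ℕ) : ℤ) + 1 * r))).card ≤ 2 := by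
    intro q hq
    have hqp := Nat.prime_of_mem_primeFactors hq
    have h1 : ((Finset.range q).filter fun r : ℕ =>
        (r = 0 ∨ (q ≠ p ∧ (q : ℤ) ∣ ((2 * p * z : ℕ) : ℤ) + 1 * r))) ⊆
        {0} ∪ ((Finset.range q).filter fun r : ℕ => (q : ℤ) ∣ ((2 * p * z : ℕ) : ℤ) + 1 * r) := by
      intro r hr
      rw [Finset.mem_filter] at hr
      rw [Finset.mem_union, Finset.mem_singleton, Finset.mem_filter]
      rcases hr.2 with h | h
      · exact Or.inl h
      · exact Or.inr ⟨hr.1, h.2⟩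
    have h2 := Finset.card_le_card h1
    have h3 := Finset.card_union_le ({0} : Finset ℕ)
      ((Finset.range q).filter fun r : ℕ => (q : ℤ) ∣ ((2 * p * z : ℕ) : ℤ) + 1 * r)
    have hq1 : ¬ (q : ℤ) ∣ 1 := by
      intro hd
      have : q ∣ 1 := by exact_mod_cast hd
      exact hqp.one_lt.ne' (Nat.dvd_one.mp this)
    have h4 := win_class hqp (a := 1) (b := ((2 * p * z : ℕ) : ℤ)) hq1
    rw [Finset.card_singleton] at h3
    omega
  have havoid := avoid_count (N * p).primeFactors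
    (fun q hq => Nat.prime_of_mem_primeFactors hq)
    (fun q => (Finset.range q).filter fun r : ℕ =>
      (r = 0 ∨ (q ≠ p ∧ (q : ℤ) ∣ ((2 * p * z : ℕ) : ℤ) + 1 * r))) hB2
    (fun q hq => by
      have hqp := Nat.prime_of_mem_primeFactors hq
      rcases Nat.lt_or_ge 2 q with h3 | h3
      · exact win_exists (hB2 q hq) h3
      · have hq2 : q = 2 := le_antisymm h3 hqp.two_le
        refine ⟨1, by omega, ?_⟩
        rw [Finset.mem_filter]
        rintro ⟨-, h | ⟨-, h⟩⟩
        · exact one_ne_zero h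
        · rw [hq2] at h
          push_cast at h
          have : (2 : ℤ) ∣ 1 := by
            have e : (1 : ℤ) = (2 * p * z + 1 * 1) - 2 * (p * z) := by ring
            rw [e]
            exact dvd_sub h ⟨_, rfl⟩
          norm_num at this) U
  refine havoid.trans ?_
  have hsub : ((Finset.range (primorial (4 * (N * p).primeFactors.card) * (U + 1))).filter
      fun s => ∀ q ∈ (N * p).primeFactors, s % q ∉ (Finset.range q).filter fun r : ℕ =>
        (r = 0 ∨ (q ≠ p ∧ (q : ℤ) ∣ ((2 * p * z : ℕ) : ℤ) + 1 * r))) ⊆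
      ((Finset.range Y).filter fun w => 0 < w ∧ ¬ p ∣ w ∧ w.Coprime N ∧
        (w + 2 * p * z).Coprime N) := by
    intro s hs
    rw [Finset.mem_filter, Finset.mem_range] at hs ⊢
    obtain ⟨hs1, hs2⟩ := hs
    have key : ∀ q ∈ (N * p).primeFactors, ¬ q ∣ s ∧ (q ≠ p → ¬ q ∣ s + 2 * p * z) := by
      intro q hq
      have hqp := Nat.prime_of_mem_primeFactors hq
      have hmod : s % q < q := Nat.mod_lt _ hqp.pos
      refine ⟨fun hd => hs2 q hq ?_, fun hne hd => hs2 q hq ?_⟩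
      · rw [Finset.mem_filter, Finset.mem_range]
        exact ⟨hmod, Or.inl (Nat.mod_eq_zero_of_dvd hd)⟩
      · rw [Finset.mem_filter, Finset.mem_range]
        refine ⟨hmod, Or.inr ⟨hne, (win_mod q s 1 _).mp ?_⟩⟩
        have e : (((2 * p * z : ℕ) : ℤ) + 1 * s) = ((s + 2 * p * z : ℕ) : ℤ) := by
          push_cast
          ring
        rw [e]
        exact_mod_cast hd
    have hpm : p ∈ (N * p).primeFactors := by
      rw [Nat.mem_primeFactors]
      exact ⟨hp, Dvd.intro_left _ rfl, hNp⟩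
    have hp1 := (key p hpm).1
    have hmem : ∀ q : ℕ, q.Prime → q ∣ N → q ∈ (N * p).primeFactors ∧ q ≠ p := by
      intro q hq hqN
      refine ⟨?_, fun h => hpN (h ▸ hqN)⟩
      rw [Nat.mem_primeFactors]
      exact ⟨hq, hqN.mul_right _, hNp⟩
    refine ⟨lt_of_lt_of_le hs1 hY, ?_, hp1, ?_, ?_⟩
    · rcases Nat.eq_zero_or_pos s with h | h
      · exact absurd (h ▸ dvd_zero p) hp1
      · exact h
    · exact win_coprime fun q hq hqN => (key q (hmem q hq hqN).1).1
    · exact win_coprime fun q hq hqN => (key q (hmem q hq hqN).1).2 (hmem q hq hqN).2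
  have hle := Finset.card_le_card hsub
  unfold kk
  omega

end Pool.Agent.TTh
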